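import Mathlib

/-!
# Vizing fan step with a Kempe swap, for graphs on an arbitrary vertex type
-/

namespace Pool.Q11.TwoEnd

open SimpleGraph

variable {V : Type*}

/-- `c` is a proper edge colouring of `G` with colours `< n`. -/
structure PC (G : SimpleGraph V) (n : ℕ) (c : V → V → ℕ) : Prop where
  lt : ∀ v w, G.Adj v w → c v w < n
  symm : ∀ v w, G.Adj v w → c v w = c w v
  inj : ∀ v w w', G.Adj v w → G.Adj v w' → c v w = c v w' → w = w'

/-- `G` is edge colourable with `n` colours. -/
def EC (G : SimpleGraph V) (n : ℕ) : Prop := ∃ c : V → V → ℕ, PC G n c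

/-- colour `a` is missing at `v`. -/
def Miss (G : SimpleGraph V) (c : V → V → ℕ) (v : V) (a : ℕ) : Prop :=
  ∀ w, G.Adj v w → c v w ≠ a

/-- the fan relation at `x`. -/
def FanR (G : SimpleGraph V) (c : V → V → ℕ) (x : V) (u w : V) : Prop :=
  G.Adj x w ∧ Miss G c u (c x w)

/-- the graph where the edge `x w` is replaced with the edge `x y`. -/
def Rotate (G : SimpleGraph V) (x y w : V) : SimpleGraph V :=
  SimpleGraph.fromRel (fun a b => (G.Adj a b ∧ ¬ (a = x ∧ b = w) ∧ ¬ (a = w ∧ b = x)) ∨ (a = x ∧ b = y))

/-- `G` plus the edge `x y`. -/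
def AddE (G : SimpleGraph V) (x y : V) : SimpleGraph V :=
  SimpleGraph.fromRel (fun a b => G.Adj a b ∨ (a = x ∧ b = y))

theorem addE_adj {G : SimpleGraph V} {x y a b : V} :
    (AddE G x y).Adj a b ↔ a ≠ b ∧ (G.Adj a b ∨ (a = x ∧ b = y) ∨ (a = y ∧ b = x)) := by
  unfold AddE
  rw [SimpleGraph.fromRel_adj]
  have := G.adj_comm a b
  tauto

theorem rotate_adj {G : SimpleGraph V} {x y w a b : V} :
    (Rotate G x y w).Adj a b ↔ a ≠ b ∧ ((G.Adj a b ∧ ¬ (a = x ∧ b = w) ∧ ¬ (a = w ∧ b = x)) ∨
      (a = x ∧ b = y) ∨ (a = y ∧ b = x)) := by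
  unfold Rotate
  rw [SimpleGraph.fromRel_adj]
  have := G.adj_comm a b
  tauto

theorem EC.mono {G G' : SimpleGraph V} {n : ℕ} (h : EC G n) (hle : G' ≤ G) : EC G' n := by
  obtain ⟨c, hc⟩ := h
  exact ⟨c, fun v w h => hc.lt v w (hle h), fun v w h => hc.symm v w (hle h),
    fun v w w' h h' => hc.inj v w w' (hle h) (hle h')⟩

/-- colouring one more edge with a common missing colour -/
theorem ec_addE {G : SimpleGraph V} {n : ℕ} {c : V → V → ℕ} (hc : PC G n c) {x y : V}
    (hxy : x ≠ y) {β : ℕ} (hβ : β < n) (hx : Miss G c x β) (hy : Miss G c y β)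
    : EC (AddE G x y) n := by
  classical
  refine ⟨fun a b => if (a = x ∧ b = y) ∨ (a = y ∧ b = x) then β else c a b, ?_, ?_, ?_⟩
  · intro v w h
    rw [addE_adj] at h
    show (if (v = x ∧ w = y) ∨ (v = y ∧ w = x) then β else c v w) < n
    split_ifs with h1
    · exact hβ
    · rcases h.2 with h2 | h2
      · exact hc.lt v w h2
      · exact absurd h2 h1
  · intro v w h
    rw [addE_adj] at h
    by_cases h1 : (v = x ∧ w = y) ∨ (v = y ∧ w = x)
    · rw [if_pos h1, if_pos (by tauto)]
    · rw [if_neg h1, if_neg (by tauto)]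
      rcases h.2 with h2 | h2
      · exact hc.symm v w h2
      · exact absurd h2 h1
  · intro v w w' h h' he
    rw [addE_adj] at h h'
    by_cases h1 : (v = x ∧ w = y) ∨ (v = y ∧ w = x)
    · rw [if_pos h1] at he
      by_cases h2 : (v = x ∧ w' = y) ∨ (v = y ∧ w' = x)
      · rcases h1 with ⟨a1, a2⟩ | ⟨a1, a2⟩ <;> rcases h2 with ⟨b1, b2⟩ | ⟨b1, b2⟩
        · rw [a2, b2]
        · exact absurd (a1.symm.trans b1) hxy
        · exact absurd (b1.symm.trans a1) hxy
        · rw [a2, b2]
      · rw [if_neg h2] at he
        have h3 : G.Adj v w' := by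
          rcases h'.2 with h3 | h3
          · exact h3
          · exact absurd h3 h2
        rcases h1 with ⟨a1, a2⟩ | ⟨a1, a2⟩
        · exact absurd he.symm (hx w' (a1 ▸ h3) |> fun t => by rw [a1]; exact t)
        · exact absurd he.symm (hy w' (a1 ▸ h3) |> fun t => by rw [a1]; exact t)
    · rw [if_neg h1] at he
      have h3 : G.Adj v w := by
        rcases h.2 with h3 | h3
        · exact h3
        · exact absurd h3 h1
      by_cases h2 : (v = x ∧ w' = y) ∨ (v = y ∧ w' = x)
      · rw [if_pos h2] at he
        rcases h2 with ⟨a1, a2⟩ | ⟨a1, a2⟩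
        · exact absurd he (hx w (a1 ▸ h3) |> fun t => by rw [a1]; exact t)
        · exact absurd he (hy w (a1 ▸ h3) |> fun t => by rw [a1]; exact t)
      · rw [if_neg h2] at he
        have h4 : G.Adj v w' := by
          rcases h'.2 with h4 | h4
          · exact h4
          · exact absurd h4 h2
        exact hc.inj v w w' h3 h4 he

/-- rotating a fan -/
theorem rotate_fan {n : ℕ} {x : V} {β : ℕ} (hβ : β < n) :
    ∀ (l : List V) (G : SimpleGraph V) (c : V → V → ℕ) (y : V), PC G n c → ¬ G.Adj x y → x ≠ y →
      (y :: l).Nodup → (y :: l).IsChain (FanR G c x) → Miss G c x β →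
      Miss G c ((y :: l).getLast (List.cons_ne_nil _ _)) β → EC (AddE G x y) n := by
  classical
  intro l
  induction l with
  | nil =>
    intro G c y hc hna hxy _ _ hx hy
    exact ec_addE hc hxy hβ hx hy
  | cons w l ih =>
    intro G c y hc hna hxy hnd hch hx hy
    rw [List.isChain_cons_cons] at hch
    obtain ⟨⟨hxw, hmy⟩, hch⟩ := hch
    have hyw : y ≠ w := by
      intro h
      rw [List.nodup_cons] at hnd
      exact hnd.1 (by rw [h]; exact List.mem_cons_self)
    have hyl : y ∉ w :: l := by
      rw [List.nodup_cons] at hnd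
      exact hnd.1
    have hndl : (w :: l).Nodup := by
      rw [List.nodup_cons] at hnd
      exact hnd.2
    have hxw' : x ≠ w := G.ne_of_adj hxw
    -- all members of `w :: l` are adjacent to `x`
    have hadj : ∀ u ∈ w :: l, G.Adj x u := by
      intro u hu
      rcases List.mem_cons.1 hu with h | h
      · rw [h]; exact hxw
      · obtain ⟨l1, l2, rfl⟩ := List.append_of_mem h
        rw [show w :: (l1 ++ u :: l2) = (w :: l1) ++ u :: l2 from rfl] at hch
        rw [List.isChain_append] at hch
        have h2 := hch.2.2 ((w :: l1).getLast (List.cons_ne_nil _ _))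
          (by rw [List.getLast?_eq_getLast_of_ne_nil (List.cons_ne_nil _ _)]; rfl) u (by simp)
        exact h2.1
    set G' := Rotate G x y w with hG'
    set c' : V → V → ℕ := fun a b => if (a = x ∧ b = y) ∨ (a = y ∧ b = x) then c x w else c a b
      with hc'
    -- adjacency away from `x`, `y`
    have hsub : ∀ u z, u ≠ x → u ≠ y → G'.Adj u z → G.Adj u z ∧ c' u z = c u z := by
      intro u z hux huy h
      rw [hG', rotate_adj] at h
      have h1 : ¬ ((u = x ∧ z = y) ∨ (u = y ∧ z = x)) := by
        rintro (h1 | h1)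
        · exact hux h1.1
        · exact huy h1.1
      refine ⟨?_, ?_⟩
      · rcases h.2 with h2 | h2
        · exact h2.1
        · exact absurd h2 h1
      · show (if (u = x ∧ z = y) ∨ (u = y ∧ z = x) then c x w else c u z) = c u z
        rw [if_neg h1]
    have hsubx : ∀ z, G'.Adj x z → (z = y ∧ c' x z = c x w) ∨ (z ≠ y ∧ z ≠ w ∧ G.Adj x z ∧ c' x z = c x z) := by
      intro z h
      rw [hG', rotate_adj] at h
      by_cases hzy : z = y
      · left
        refine ⟨hzy, ?_⟩
        show (if (x = x ∧ z = y) ∨ (x = y ∧ z = x) then c x w else c x z) = c x w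
        rw [if_pos (Or.inl ⟨rfl, hzy⟩)]
      · right
        have h1 : ¬ ((x = x ∧ z = y) ∨ (x = y ∧ z = x)) := by
          rintro (h1 | h1)
          · exact hzy h1.2
          · exact hxy h1.1
        refine ⟨hzy, ?_, ?_, ?_⟩
        · rintro rfl
          rcases h.2 with h2 | h2
          · exact h2.2.1 ⟨rfl, rfl⟩
          · exact h1 h2
        · rcases h.2 with h2 | h2
          · exact h2.1
          · exact absurd h2 h1
        · show (if (x = x ∧ z = y) ∨ (x = y ∧ z = x) then c x w else c x z) = c x z
          rw [if_neg h1]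
    have hsuby : ∀ z, G'.Adj y z → (z = x ∧ c' y z = c x w) ∨ (z ≠ x ∧ G.Adj y z ∧ c' y z = c y z) := by
      intro z h
      rw [hG', rotate_adj] at h
      by_cases hzx : z = x
      · left
        refine ⟨hzx, ?_⟩
        show (if (y = x ∧ z = y) ∨ (y = y ∧ z = x) then c x w else c y z) = c x w
        rw [if_pos (Or.inr ⟨rfl, hzx⟩)]
      · right
        have h1 : ¬ ((y = x ∧ z = y) ∨ (y = y ∧ z = x)) := by
          rintro (h1 | h1)
          · exact hxy h1.1.symm
          · exact hzx h1.2
        refine ⟨hzx, ?_, ?_⟩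
        · rcases h.2 with h2 | h2
          · exact h2.1
          · exact absurd h2 h1
        · show (if (y = x ∧ z = y) ∨ (y = y ∧ z = x) then c x w else c y z) = c y z
          rw [if_neg h1]
    have hPC : PC G' n c' := by
      refine ⟨?_, ?_, ?_⟩
      · intro v z h
        by_cases hvx : v = x
        · subst hvx
          rcases hsubx z h with h1 | h1
          · rw [h1.2]; exact hc.lt _ _ hxw
          · rw [h1.2.2.2]; exact hc.lt _ _ h1.2.2.1
        · by_cases hvy : v = y
          · subst hvy
            rcases hsuby z h with h1 | h1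
            · rw [h1.2]; exact hc.lt _ _ hxw
            · rw [h1.2.2]; exact hc.lt _ _ h1.2.1
          · have := hsub v z hvx hvy h
            rw [this.2]; exact hc.lt _ _ this.1
      · intro v z h
        show (if (v = x ∧ z = y) ∨ (v = y ∧ z = x) then c x w else c v z) =
          (if (z = x ∧ v = y) ∨ (z = y ∧ v = x) then c x w else c z v)
        by_cases h1 : (v = x ∧ z = y) ∨ (v = y ∧ z = x)
        · rw [if_pos h1, if_pos (by tauto)]
        · rw [if_neg h1, if_neg (by tauto)]
          rw [hG', rotate_adj] at h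
          rcases h.2 with h2 | h2
          · exact hc.symm v z h2.1
          · exact absurd h2 h1
      · intro v z z' h h' he
        by_cases hvx : v = x
        · subst hvx
          rcases hsubx z h with h1 | h1 <;> rcases hsubx z' h' with h2 | h2
          · rw [h1.1, h2.1]
          · rw [h1.2, h2.2.2.2] at he
            exact absurd (hc.inj _ _ _ hxw h2.2.2.1 he).symm h2.2.1
          · rw [h1.2.2.2, h2.2] at he
            exact absurd (hc.inj _ _ _ h1.2.2.1 hxw he) h1.2.1
          · rw [h1.2.2.2, h2.2.2.2] at he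
            exact hc.inj _ _ _ h1.2.2.1 h2.2.2.1 he
        · by_cases hvy : v = y
          · subst hvy
            rcases hsuby z h with h1 | h1 <;> rcases hsuby z' h' with h2 | h2
            · rw [h1.1, h2.1]
            · rw [h1.2, h2.2.2] at he
              exact absurd he.symm (hmy z' h2.2.1)
            · rw [h1.2.2, h2.2] at he
              exact absurd he (hmy z h1.2.1)
            · rw [h1.2.2, h2.2.2] at he
              exact hc.inj _ _ _ h1.2.1 h2.2.1 he
          · have h1 := hsub v z hvx hvy h
            have h2 := hsub v z' hvx hvy h'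
            rw [h1.2, h2.2] at he
            exact hc.inj _ _ _ h1.1 h2.1 he
    have hmiss : ∀ u γ, u ≠ x → u ≠ y → Miss G c u γ → Miss G' c' u γ := by
      intro u γ hux huy h z hz
      have := hsub u z hux huy hz
      rw [this.2]
      exact h z this.1
    have hnx : ∀ u ∈ w :: l, u ≠ x := fun u hu h => G.ne_of_adj (hadj u hu) h.symm
    have hny : ∀ u ∈ w :: l, u ≠ y := fun u hu h => hyl (h ▸ hu)
    have hcadd : AddE G' x w = AddE G x y := by
      ext a b
      rw [addE_adj, addE_adj, hG', rotate_adj]
      constructor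
      · rintro ⟨h1, h2⟩
        refine ⟨h1, ?_⟩
        rcases h2 with h2 | h2 | h2
        · rcases h2.2 with h3 | h3
          · exact Or.inl h3.1
          · exact Or.inr h3
        · left; rw [h2.1, h2.2]; exact hxw
        · left; rw [h2.1, h2.2]; exact hxw.symm
      · rintro ⟨h1, h2⟩
        refine ⟨h1, ?_⟩
        by_cases h3 : (a = x ∧ b = w) ∨ (a = w ∧ b = x)
        · exact Or.inr h3
        · left
          refine ⟨h1, ?_⟩
          rcases h2 with h2 | h2
          · left
            exact ⟨h2, fun h4 => h3 (Or.inl h4), fun h4 => h3 (Or.inr h4)⟩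
          · exact Or.inr h2
    rw [← hcadd]
    refine ih G' c' w hPC ?_ hxw' hndl ?_ ?_ ?_
    · intro h
      rcases hsubx w h with h1 | h1
      · exact hyw h1.1.symm
      · exact h1.2.1 rfl
    · refine hch.imp_of_mem_tail_imp ?_
      intro a b ha hb hab
      have hb' : b ≠ w := by
        rintro rfl
        rw [List.tail_cons] at hb
        rw [List.nodup_cons] at hndl
        exact hndl.1 hb
      have hbm : b ∈ w :: l := List.mem_of_mem_tail hb
      have hcb : c' x b = c x b := by
        show (if (x = x ∧ b = y) ∨ (x = y ∧ b = x) then c x w else c x b) = c x b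
        rw [if_neg]
        rintro (h1 | h1)
        · exact hny b hbm h1.2
        · exact hxy h1.1
      refine ⟨?_, ?_⟩
      · rw [hG', rotate_adj]
        refine ⟨fun h => hnx b hbm h.symm, Or.inl ⟨hab.1, ?_, ?_⟩⟩
        · rintro ⟨_, h1⟩; exact hb' h1
        · rintro ⟨h1, _⟩; exact hxw' h1
      · rw [hcb]
        exact hmiss a _ (hnx a ha) (hny a ha) hab.2
    · intro z hz
      rcases hsubx z hz with h1 | h1
      · rw [h1.2]; exact hx w hxw
      · rw [h1.2.2.2]; exact hx z h1.2.2.1
    · rw [List.getLast_cons (List.cons_ne_nil _ _)] at hy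
      have hl := List.getLast_mem (List.cons_ne_nil w l)
      exact hmiss _ _ (hnx _ hl) (hny _ hl) hy

/-- Kempe subgraph -/
def Kem (G : SimpleGraph V) (c : V → V → ℕ) (hs : ∀ v w, G.Adj v w → c v w = c w v) (α β : ℕ) :
    SimpleGraph V where
  Adj v w := G.Adj v w ∧ (c v w = α ∨ c v w = β)
  symm := ⟨fun v w h => ⟨h.1.symm, by rw [← hs v w h.1]; exact h.2⟩⟩
  loopless := ⟨fun v h => G.loopless.irrefl v h.1⟩

/-- uniqueness of the far end of a path in a graph of degree at most two -/
theorem path_end_unique (K : SimpleGraph V)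
    (h2 : ∀ v a b d, K.Adj v a → K.Adj v b → K.Adj v d → a = b ∨ a = d ∨ b = d) {b b' : V}
    (hb : ∀ a d, K.Adj b a → K.Adj b d → a = d) (hb' : ∀ a d, K.Adj b' a → K.Adj b' d → a = d) :
    ∀ (v : V) (p : K.Walk v b) (_ : p.IsPath) (u : V) (_ : K.Adj v u) (_ : u ∉ p.support)
      (q : K.Walk v b') (_ : q.IsPath) (_ : u ∉ q.support), b = b' := by
  intro v p
  induction p with
  | nil =>
    intro _ u hu _ q hq huq
    cases q with
    | nil => rfl
    | cons h q' =>
      exfalso
      have := hb _ _ hu h
      rw [this] at huq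
      exact huq (by simp)
  | @cons v w b h p ih =>
    intro hp u hu hup q hq huq
    cases q with
    | nil =>
      exfalso
      have := hb' _ _ hu h
      rw [this] at hup
      exact hup (by simp)
    | @cons _ w' _ h' q' =>
      have hww : w = w' := by
        rcases h2 v u w w' hu h h' with h3 | h3 | h3
        · exfalso; rw [h3] at hup; exact hup (by simp)
        · exfalso; rw [h3] at huq; exact huq (by simp)
        · exact h3
      subst hww
      rw [Walk.cons_isPath_iff] at hp hq
      exact ih hb hp.1 v h.symm hp.2 q' hq.1 hq.2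

/-- a component of a graph with degrees at most two has at most two vertices of degree at most one -/
theorem comp_two (K : SimpleGraph V)
    (h2 : ∀ v a b d, K.Adj v a → K.Adj v b → K.Adj v d → a = b ∨ a = d ∨ b = d) {x b b' : V}
    (hx : ∀ a d, K.Adj x a → K.Adj x d → a = d)
    (hb : ∀ a d, K.Adj b a → K.Adj b d → a = d) (hb' : ∀ a d, K.Adj b' a → K.Adj b' d → a = d)
    (hxb : x ≠ b) (hxb' : x ≠ b') (h : K.Reachable x b) (h' : K.Reachable x b') : b = b' := by
  classical
  obtain ⟨p⟩ := h
  obtain ⟨q⟩ := h'
  have hp := p.bypass_isPath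
  have hq := q.bypass_isPath
  generalize p.bypass = p at hp
  generalize q.bypass = q at hq
  cases p with
  | nil => exact absurd rfl hxb
  | @cons _ w _ h p =>
    cases q with
    | nil => exact absurd rfl hxb'
    | @cons _ w' _ h' q =>
      have hww := hx _ _ h h'
      subst hww
      rw [Walk.cons_isPath_iff] at hp hq
      exact path_end_unique K h2 hb hb' w p hp.1 x h.symm hp.2 q hq.1 hq.2

/-- swapping two colours on a union of Kempe components -/
theorem swap_PC {G : SimpleGraph V} {n : ℕ} {c : V → V → ℕ} (hc : PC G n c) {α β : ℕ}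
    (hα : α < n) (hβ : β < n) (P : V → Prop) [DecidablePred P]
    (hP : ∀ v w, G.Adj v w → (c v w = α ∨ c v w = β) → (P v ↔ P w)) :
    PC G n (fun v w => if P v then Equiv.swap α β (c v w) else c v w) := by
  have hsw : ∀ a, a < n → Equiv.swap α β a < n := by
    intro a ha
    rw [Equiv.swap_apply_def]
    split_ifs <;> assumption
  refine ⟨?_, ?_, ?_⟩
  · intro v w h
    show (if P v then Equiv.swap α β (c v w) else c v w) < n
    split_ifs
    · exact hsw _ (hc.lt v w h)
    · exact hc.lt v w h
  · intro v w h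
    show (if P v then Equiv.swap α β (c v w) else c v w) =
      (if P w then Equiv.swap α β (c w v) else c w v)
    rw [← hc.symm v w h]
    by_cases h1 : c v w = α ∨ c v w = β
    · have := hP v w h h1
      by_cases hv : P v
      · rw [if_pos hv, if_pos (this.1 hv)]
      · rw [if_neg hv, if_neg (fun h => hv (this.2 h))]
    · push Not at h1
      rw [Equiv.swap_apply_of_ne_of_ne h1.1 h1.2]
      split_ifs <;> rfl
  · intro v w w' h h' he
    by_cases hv : P v
    · simp only [hv, if_true] at he
      exact hc.inj v w w' h h' ((Equiv.swap α β).injective he)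
    · simp only [hv, if_false] at he
      exact hc.inj v w w' h h' he

/-- **Vizing fan lemma** -/
theorem fan_lemma {G : SimpleGraph V} {n : ℕ} {c : V → V → ℕ} (hc : PC G n c) {x y : V}
    (hxy : x ≠ y) (hna : ¬ G.Adj x y) (hx : ∃ a, a < n ∧ Miss G c x a)
    (hN : ∀ w, w = y ∨ G.Adj x w → ∃ a, a < n ∧ Miss G c w a) : EC (AddE G x y) n := by
  classical
  obtain ⟨α, hα, hxα⟩ := hx
  -- a fan of maximal length
  have hbound : ∀ l : List V, (y :: l).Nodup → (y :: l).IsChain (FanR G c x) →
      (∀ w ∈ l, G.Adj x w) := by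
    intro l _ hch w hw
    obtain ⟨l1, l2, rfl⟩ := List.append_of_mem hw
    rw [show y :: (l1 ++ w :: l2) = (y :: l1) ++ w :: l2 from rfl] at hch
    rw [List.isChain_append] at hch
    have h2 := hch.2.2 ((y :: l1).getLast (List.cons_ne_nil _ _))
      (by rw [List.getLast?_eq_getLast_of_ne_nil (List.cons_ne_nil _ _)]; rfl) w (by simp)
    exact h2.1
  have hlen : ∀ l : List V, (y :: l).Nodup → (y :: l).IsChain (FanR G c x) → l.length ≤ n := by
    intro l hnd hch
    have hadj := hbound l hnd hch
    have h1 : (l.map (c x)).Nodup := by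
      rw [List.nodup_cons] at hnd
      exact List.Nodup.map_on (fun a ha b hb h => hc.inj x a b (hadj a ha) (hadj b hb) h) hnd.2
    have h2 : (l.map (c x)).toFinset ⊆ Finset.range n := by
      intro a ha
      rw [List.mem_toFinset, List.mem_map] at ha
      obtain ⟨w, hw, rfl⟩ := ha
      exact Finset.mem_range.2 (hc.lt x w (hadj w hw))
    have h3 := Finset.card_le_card h2
    rw [List.toFinset_card_of_nodup h1, List.length_map, Finset.card_range] at h3
    exact h3
  obtain ⟨l, hl, hmax⟩ : ∃ l : List V, ((y :: l).Nodup ∧ (y :: l).IsChain (FanR G c x)) ∧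
      ∀ l' : List V, ((y :: l').Nodup ∧ (y :: l').IsChain (FanR G c x)) → l'.length ≤ l.length := by
    by_contra hcon
    push Not at hcon
    have : ∀ m : ℕ, ∃ l : List V, ((y :: l).Nodup ∧ (y :: l).IsChain (FanR G c x)) ∧ m ≤ l.length := by
      intro m
      induction m with
      | zero => exact ⟨[], ⟨List.nodup_singleton _, List.isChain_singleton _⟩, Nat.zero_le _⟩
      | succ m ih =>
        obtain ⟨l, hl, hm⟩ := ih
        obtain ⟨l', hl', hm'⟩ := hcon l hl
        exact ⟨l', hl', by omega⟩
    obtain ⟨l, hl, hm⟩ := this (n + 1)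
    have := hlen l hl.1 hl.2
    omega
  obtain ⟨hnd, hch⟩ := hl
  have hadj := hbound l hnd hch
  set z := (y :: l).getLast (List.cons_ne_nil _ _) with hz
  have hzmem : z ∈ y :: l := List.getLast_mem _
  obtain ⟨β, hβ, hzβ⟩ : ∃ a, a < n ∧ Miss G c z a := by
    apply hN
    rcases List.mem_cons.1 hzmem with h | h
    · exact Or.inl h
    · exact Or.inr (hadj z h)
  by_cases hxβ : Miss G c x β
  · exact rotate_fan hβ l G c y hc hna hxy hnd hch hxβ hzβ
  unfold Miss at hxβ
  push Not at hxβ
  obtain ⟨w, hxw, hcw⟩ := hxβ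
  have hwl : w ∈ l := by
    by_contra hwl
    have hwy : w ≠ y := fun h => hna (h ▸ hxw)
    have h1 : (y :: (l ++ [w])).Nodup ∧ (y :: (l ++ [w])).IsChain (FanR G c x) := by
      constructor
      · rw [show y :: (l ++ [w]) = (y :: l) ++ [w] from rfl, List.nodup_append]
        refine ⟨hnd, List.nodup_singleton _, ?_⟩
        intro a ha b hb hab
        rw [List.mem_singleton] at hb
        rw [hb] at hab
        rcases List.mem_cons.1 ha with h | h
        · exact hwy (hab.symm.trans h)
        · exact hwl (hab ▸ h)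
      · rw [show y :: (l ++ [w]) = (y :: l) ++ [w] from rfl, List.isChain_append]
        refine ⟨hch, List.isChain_singleton _, ?_⟩
        intro a ha b hb
        rw [List.getLast?_eq_getLast_of_ne_nil (List.cons_ne_nil _ _)] at ha
        simp only [List.head?_cons, Option.mem_def, Option.some.injEq] at ha hb
        rw [← hb, ← ha]
        exact ⟨hxw, by rw [hcw]; exact hzβ⟩
    have h2 := hmax _ h1
    rw [List.length_append, List.length_singleton] at h2
    omega
  obtain ⟨l1, l2, hl12⟩ := List.append_of_mem hwl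
  subst hl12
  have hαβ : α ≠ β := fun h => hxα w hxw (by rw [hcw, h])
  set u := (y :: l1).getLast (List.cons_ne_nil _ _) with hu
  have happ : y :: (l1 ++ w :: l2) = (y :: l1) ++ w :: l2 := rfl
  have hch' := hch
  rw [happ, List.isChain_append] at hch'
  have huw : FanR G c x u w := hch'.2.2 u
    (by rw [List.getLast?_eq_getLast_of_ne_nil (List.cons_ne_nil _ _)]; rfl) w (by simp)
  have huβ : Miss G c u β := by rw [← hcw]; exact huw.2
  have humem : u ∈ y :: l1 := List.getLast_mem _
  have hzmem2 : z ∈ w :: l2 := by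
    rw [hz]
    have : (y :: (l1 ++ w :: l2)).getLast (List.cons_ne_nil _ _) =
        (w :: l2).getLast (List.cons_ne_nil _ _) :=
      List.getLast_append_right (l := y :: l1) (List.cons_ne_nil w l2)
    rw [this]
    exact List.getLast_mem _
  have hnd' := hnd
  rw [happ, List.nodup_append] at hnd'
  have hzu : u ≠ z := hnd'.2.2 u humem z hzmem2
  -- the Kempe component of `x`
  set K := Kem G c hc.symm α β with hK
  set P : V → Prop := fun v => K.Reachable x v with hP
  have hPx : P x := Reachable.refl _
  have hPadj : ∀ v w, G.Adj v w → (c v w = α ∨ c v w = β) → (P v ↔ P w) := by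
    intro v w h h1
    have h2 : K.Adj v w := ⟨h, h1⟩
    exact ⟨fun h3 => h3.trans h2.reachable, fun h3 => h3.trans h2.symm.reachable⟩
  have hPC2 := swap_PC hc hα hβ P hPadj
  set c2 : V → V → ℕ := fun v w => if P v then Equiv.swap α β (c v w) else c v w with hc2
  have hmissP : ∀ v γ, P v → Miss G c v (Equiv.swap α β γ) → Miss G c2 v γ := by
    intro v γ hv h b hb hcb
    have h3 : c2 v b = Equiv.swap α β (c v b) := if_pos hv
    rw [h3] at hcb
    apply h b hb
    rw [← hcb, Equiv.swap_apply_self]
  have hmissN : ∀ v γ, ¬ P v → Miss G c v γ → Miss G c2 v γ := by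
    intro v γ hv h b hb
    have h3 : c2 v b = c v b := if_neg hv
    rw [h3]
    exact h b hb
  have hxβ2 : Miss G c2 x β := hmissP x β hPx (by rw [Equiv.swap_apply_right]; exact hxα)
  -- chain steps away from `w`
  have hstep : ∀ a b, b ≠ w → FanR G c x a b → FanR G c2 x a b := by
    intro a b hbw hab
    have h1 : c x b ≠ α := hxα b hab.1
    have h2 : c x b ≠ β := fun h => hbw (hc.inj x b w hab.1 hxw (by rw [h, hcw]))
    have h3 : c2 x b = c x b := by
      have : c2 x b = Equiv.swap α β (c x b) := if_pos hPx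
      rw [this, Equiv.swap_apply_of_ne_of_ne h1 h2]
    refine ⟨hab.1, ?_⟩
    rw [h3]
    by_cases hPa : P a
    · apply hmissP a _ hPa
      rw [Equiv.swap_apply_of_ne_of_ne h1 h2]
      exact hab.2
    · exact hmissN a _ hPa hab.2
  have hwl1 : w ∉ y :: l1 := fun h => hnd'.2.2 w h w List.mem_cons_self rfl
  have hwl2 : w ∉ l2 := (List.nodup_cons.1 hnd'.2.1).1
  by_cases hPu : P u
  · -- then `z` is not in the component
    have hPz : ¬ P z := by
      intro hPz
      apply hzu
      have hdeg1 : ∀ (v : V) (γ : ℕ), (γ = α ∨ γ = β) → Miss G c v γ →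
          ∀ a d, K.Adj v a → K.Adj v d → a = d := by
        intro v γ hγ hm a d ha hd
        apply hc.inj v a d ha.1 hd.1
        have h1 := hm a ha.1
        have h2 := hm d hd.1
        rcases ha.2 with h3 | h3 <;> rcases hd.2 with h4 | h4 <;> rcases hγ with h5 | h5
        · rw [h3, h4]
        · rw [h3, h4]
        · exact absurd (h3.trans h5.symm) h1
        · exact absurd (h4.trans h5.symm) h2
        · exact absurd (h4.trans h5.symm) h2
        · exact absurd (h3.trans h5.symm) h1
        · rw [h3, h4]
        · rw [h3, h4]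
      have hxu : x ≠ u := by
        rintro h
        rcases List.mem_cons.1 humem with h1 | h1
        · exact hxy (h.trans h1)
        · exact G.ne_of_adj (hadj u (List.mem_append_left _ h1)) h
      have hxz : x ≠ z := by
        rintro h
        exact G.ne_of_adj (hadj z (List.mem_append_right _ hzmem2)) h
      refine comp_two K ?_ (hdeg1 x α (Or.inl rfl) hxα) (hdeg1 u β (Or.inr rfl) huβ)
        (hdeg1 z β (Or.inr rfl) hzβ) hxu hxz hPu hPz
      intro v a b d ha hb hd
      rcases ha.2 with h3 | h3 <;> rcases hb.2 with h4 | h4 <;> rcases hd.2 with h5 | h5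
      · left; exact hc.inj v a b ha.1 hb.1 (h3.trans h4.symm)
      · left; exact hc.inj v a b ha.1 hb.1 (h3.trans h4.symm)
      · right; left; exact hc.inj v a d ha.1 hd.1 (h3.trans h5.symm)
      · right; right; exact hc.inj v b d hb.1 hd.1 (h4.trans h5.symm)
      · right; right; exact hc.inj v b d hb.1 hd.1 (h4.trans h5.symm)
      · right; left; exact hc.inj v a d ha.1 hd.1 (h3.trans h5.symm)
      · left; exact hc.inj v a b ha.1 hb.1 (h3.trans h4.symm)
      · left; exact hc.inj v a b ha.1 hb.1 (h3.trans h4.symm)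
    refine rotate_fan hβ (l1 ++ w :: l2) G c2 y hPC2 hna hxy hnd ?_ hxβ2 (hmissN z β hPz hzβ)
    rw [happ, List.isChain_append]
    refine ⟨hch'.1.imp_of_mem_imp ?_, hch'.2.1.imp_of_mem_tail_imp ?_, ?_⟩
    · intro a b _ hb hab
      exact hstep a b (fun h => hwl1 (h ▸ hb)) hab
    · intro a b _ hb hab
      rw [List.tail_cons] at hb
      exact hstep a b (fun h => hwl2 (h ▸ hb)) hab
    · intro a ha b hb
      rw [List.getLast?_eq_getLast_of_ne_nil (List.cons_ne_nil _ _)] at ha
      simp only [List.head?_cons, Option.mem_def, Option.some.injEq] at ha hb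
      rw [← hb, ← ha]
      refine ⟨hxw, ?_⟩
      have h3 : c2 x w = α := by
        have : c2 x w = Equiv.swap α β (c x w) := if_pos hPx
        rw [this, hcw, Equiv.swap_apply_right]
      rw [h3]
      apply hmissP _ _ hPu
      rw [Equiv.swap_apply_left]
      exact huβ
  · refine rotate_fan hβ l1 G c2 y hPC2 hna hxy hnd'.1 ?_ hxβ2 (hmissN u β hPu huβ)
    refine hch'.1.imp_of_mem_imp ?_
    intro a b _ hb hab
    exact hstep a b (fun h => hwl1 (h ▸ hb)) hab

end Pool.Q11.TwoEnd
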