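import Mathlib
import Pool.Agent.Q11.TwoEnd.Fan

/-!
# Edge colouring of chains of blocks, and compactness
-/

namespace Pool.Q11.TwoEnd

open SimpleGraph

variable {V : Type*}

theorem miss_exists {G : SimpleGraph V} {n : ℕ} {c : V → V → ℕ} {w : V}
    (hfin : (G.neighborSet w).Finite) (hcard : (G.neighborSet w).ncard < n) :
    ∃ a, a < n ∧ Miss G c w a := by
  classical
  by_contra hcon
  push Not at hcon
  have h1 : Finset.range n ⊆ hfin.toFinset.image (c w) := by
    intro a ha
    have h2 := hcon a (Finset.mem_range.1 ha)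
    unfold Miss at h2
    push Not at h2
    obtain ⟨v, hv, hcv⟩ := h2
    exact Finset.mem_image.2 ⟨v, hfin.mem_toFinset.2 hv, hcv⟩
  have h2 := Finset.card_le_card h1
  rw [Finset.card_range] at h2
  have h3 := h2.trans Finset.card_image_le
  rw [← Set.ncard_eq_toFinset_card _ hfin] at h3
  omega

/-- the hypotheses on a chain of blocks -/
structure ChainLike (G : SimpleGraph V) (pos : V → ℤ) (d : ℕ) : Prop where
  low : ∀ v a b, G.Adj v a → G.Adj v b → pos a < pos v → pos b < pos v → a = b
  up : ∀ v a b, G.Adj v a → G.Adj v b → pos v < pos a → pos v < pos b → a = b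
  same : ∀ v, {w | G.Adj v w ∧ pos w = pos v}.Finite ∧ {w | G.Adj v w ∧ pos w = pos v}.ncard ≤ d

theorem ncard_subsingleton_le {s : Set V} (h : s.Subsingleton) : s.Finite ∧ s.ncard ≤ 1 :=
  ⟨h.finite, (Set.ncard_le_one h.finite).2 fun _ ha _ hb => h ha hb⟩

theorem chain_finite {G : SimpleGraph V} {pos : V → ℤ} {d : ℕ} (hG : ChainLike G pos d) :
    ∀ (m : ℕ) (F : SimpleGraph V), F ≤ G → F.edgeSet.Finite → F.edgeSet.ncard = m → EC F (d + 2) := by
  classical
  intro m
  induction m with
  | zero =>
    intro F _ hfin h0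
    rw [Set.ncard_eq_zero hfin] at h0
    have h1 : ∀ v w, ¬ F.Adj v w := by
      intro v w h
      have : s(v, w) ∈ F.edgeSet := h
      rw [h0] at this
      exact this
    exact ⟨fun _ _ => 0, fun v w h => absurd h (h1 v w), fun v w h => absurd h (h1 v w),
      fun v w _ h => absurd h (h1 v w)⟩
  | succ m ih =>
    intro F hFG hfin hm
    -- the set of non isolated vertices is finite and non empty
    set W : Set V := {v | ∃ w, F.Adj v w} with hW
    have hWfin : W.Finite := by
      have h1 : W ⊆ ⋃ e ∈ F.edgeSet, {v | v ∈ e} := by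
        rintro v ⟨w, hw⟩
        rw [Set.mem_iUnion₂]
        exact ⟨s(v, w), hw, by simp⟩
      refine (Set.Finite.biUnion hfin ?_).subset h1
      intro e _
      induction e using Sym2.ind with
      | _ a b =>
        refine (Set.toFinite {a, b}).subset ?_
        intro v hv
        simpa using hv
    have hWne : W.Nonempty := by
      have h1 : F.edgeSet.Nonempty := by
        rw [← Set.ncard_pos hfin]; omega
      obtain ⟨e, he⟩ := h1
      induction e using Sym2.ind with
      | _ a b => exact ⟨a, b, he⟩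
    obtain ⟨y, hyW, hymax⟩ := Set.exists_max_image W pos hWfin hWne
    have hmaxF : ∀ v w, F.Adj v w → pos w ≤ pos y := fun v w h => hymax w ⟨v, h.symm⟩
    -- choose the neighbour
    obtain ⟨z, hyz, hz⟩ : ∃ z, F.Adj y z ∧ ∀ w, F.Adj y w → pos w < pos y → w = z := by
      by_cases h : ∃ z, F.Adj y z ∧ pos z < pos y
      · obtain ⟨z, hz1, hz2⟩ := h
        exact ⟨z, hz1, fun w hw hw2 => hG.low y w z (hFG hw) (hFG hz1) hw2 hz2⟩
      · push Not at h
        obtain ⟨z, hz⟩ := hyW
        exact ⟨z, hz, fun w hw hw2 => absurd hw2 (not_lt.2 (h w hw))⟩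
    set F' : SimpleGraph V := F.deleteEdges {s(y, z)} with hF'
    have hF'F : F' ≤ F := SimpleGraph.deleteEdges_le _
    have hF'adj : ∀ a b, F'.Adj a b ↔ F.Adj a b ∧ ¬ ((a = y ∧ b = z) ∨ (a = z ∧ b = y)) := by
      intro a b
      rw [hF', SimpleGraph.deleteEdges_adj, Set.mem_singleton_iff, Sym2.eq_iff]
    have hedge : F'.edgeSet = F.edgeSet \ {s(y, z)} := by
      rw [hF', SimpleGraph.edgeSet_deleteEdges]
    have hfin' : F'.edgeSet.Finite := by
      rw [hedge]; exact hfin.subset Set.sdiff_subset
    have hm' : F'.edgeSet.ncard = m := by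
      rw [hedge]
      have h1 : s(y, z) ∈ F.edgeSet := hyz
      have h2 := Set.ncard_sdiff_singleton_add_one h1 hfin
      omega
    obtain ⟨c, hc⟩ := ih F' (hF'F.trans hFG) hfin' hm'
    have hyz' : y ≠ z := F.ne_of_adj hyz
    have hna : ¬ F'.Adj y z := by
      intro h
      rw [hF'adj] at h
      exact h.2 (Or.inl ⟨rfl, rfl⟩)
    have hadd : AddE F' y z = F := by
      ext a b
      rw [addE_adj, hF'adj]
      constructor
      · rintro ⟨_, h | h | h⟩
        · exact h.1
        · rw [h.1, h.2]; exact hyz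
        · rw [h.1, h.2]; exact hyz.symm
      · intro h
        refine ⟨F.ne_of_adj h, ?_⟩
        by_cases h2 : (a = y ∧ b = z) ∨ (a = z ∧ b = y)
        · exact Or.inr h2
        · exact Or.inl ⟨h, h2⟩
    -- neighbour sets
    have hsplit : ∀ v, F.neighborSet v ⊆ {w | F.Adj v w ∧ pos w < pos v} ∪
        {w | G.Adj v w ∧ pos w = pos v} ∪ {w | F.Adj v w ∧ pos v < pos w} := by
      intro v w hw
      have hw' : F.Adj v w := hw
      rcases lt_trichotomy (pos w) (pos v) with h | h | h
      · exact Or.inl (Or.inl ⟨hw', h⟩)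
      · exact Or.inl (Or.inr ⟨hFG hw', h⟩)
      · exact Or.inr ⟨hw', h⟩
    have hlowS : ∀ v, ({w | F.Adj v w ∧ pos w < pos v} : Set V).Subsingleton :=
      fun v a ha b hb => hG.low v a b (hFG ha.1) (hFG hb.1) ha.2 hb.2
    have hupS : ∀ v, ({w | F.Adj v w ∧ pos v < pos w} : Set V).Subsingleton :=
      fun v a ha b hb => hG.up v a b (hFG ha.1) (hFG hb.1) ha.2 hb.2
    have hdeg : ∀ v, (F.neighborSet v).Finite ∧ (F.neighborSet v).ncard ≤ d + 2 := by
      intro v
      have h1 := ncard_subsingleton_le (hlowS v)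
      have h2 := ncard_subsingleton_le (hupS v)
      have h3 := hG.same v
      have hf := (h1.1.union h3.1).union h2.1
      refine ⟨hf.subset (hsplit v), ?_⟩
      have h4 := Set.ncard_le_ncard (hsplit v) hf
      have h5 := Set.ncard_union_le ({w | F.Adj v w ∧ pos w < pos v} ∪
        {w | G.Adj v w ∧ pos w = pos v}) {w | F.Adj v w ∧ pos v < pos w}
      have h6 := Set.ncard_union_le {w | F.Adj v w ∧ pos w < pos v}
        {w | G.Adj v w ∧ pos w = pos v}
      omega
    have hdegmax : ∀ v, pos v = pos y → (F.neighborSet v).ncard ≤ d + 1 := by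
      intro v hv
      have h1 := ncard_subsingleton_le (hlowS v)
      have h3 := hG.same v
      have hempty : {w | F.Adj v w ∧ pos v < pos w} = ∅ := by
        rw [Set.eq_empty_iff_forall_notMem]
        rintro w ⟨hw, hlt⟩
        have := hmaxF v w hw
        omega
      have hs := hsplit v
      rw [hempty, Set.union_empty] at hs
      have hf := h1.1.union h3.1
      have h4 := Set.ncard_le_ncard hs hf
      have h6 := Set.ncard_union_le {w | F.Adj v w ∧ pos w < pos v}
        {w | G.Adj v w ∧ pos w = pos v}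
      omega
    have hle : ∀ v, (F'.neighborSet v) ⊆ F.neighborSet v := fun v w hw => hF'F hw
    have hfin2 : ∀ v, (F'.neighborSet v).Finite := fun v => (hdeg v).1.subset (hle v)
    have hdegy : (F'.neighborSet y).ncard < d + 2 := by
      have := Set.ncard_le_ncard (hle y) (hdeg y).1
      have := hdegmax y rfl
      omega
    rw [← hadd]
    refine fan_lemma hc hyz' hna (miss_exists (hfin2 y) hdegy) ?_
    intro w hw
    refine miss_exists (hfin2 w) ?_
    rcases hw with rfl | hw
    · -- `w = z` has lost an edge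
      have h1 : F'.neighborSet w ⊂ F.neighborSet w := by
        refine ⟨hle w, ?_⟩
        intro h
        have h2 : F'.Adj w y := h hyz.symm
        exact hna h2.symm
      have h2 := Set.ncard_lt_ncard h1 (hdeg w).1
      have := (hdeg w).2
      omega
    · have hwz : w ≠ z := fun h => hna (h ▸ hw)
      have hwF : F.Adj y w := hF'F hw
      have hpos : pos w = pos y := by
        have h1 := hmaxF y w hwF
        by_contra h2
        exact hwz (hz w hwF (lt_of_le_of_ne h1 h2))
      have h1 := hdegmax w hpos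
      have h2 := Set.ncard_le_ncard (hle w) (hdeg w).1
      omega

/-- compactness of edge colourings -/
theorem ec_compact {G : SimpleGraph V} {n : ℕ}
    (h : ∀ F : SimpleGraph V, F ≤ G → F.edgeSet.Finite → EC F n) : EC G n := by
  classical
  -- for every finite set of edges choose a colouring
  have h1 : ∀ E : Finset (Sym2 V), ∃ c : V → V → ℕ, PC (SimpleGraph.fromEdgeSet (↑E ∩ G.edgeSet)) n c := by
    intro E
    apply h
    · intro a b hab
      rw [SimpleGraph.fromEdgeSet_adj] at hab
      exact hab.1.2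
    · rw [SimpleGraph.edgeSet_fromEdgeSet]
      exact (E.finite_toSet.subset Set.inter_subset_left).subset Set.sdiff_subset
  choose c hc using h1
  set U : Ultrafilter (Finset (Sym2 V)) := Ultrafilter.of Filter.atTop with hU
  have hUle : (U : Filter (Finset (Sym2 V))) ≤ Filter.atTop := Ultrafilter.of_le _
  have hmem : ∀ E : Finset (Sym2 V), {F : Finset (Sym2 V) | E ⊆ F} ∈ U := fun E =>
    hUle (Filter.mem_atTop E)
  -- colour of an edge
  have hcol : ∀ v w, G.Adj v w → ∃ a, a < n ∧ {E : Finset (Sym2 V) | c E v w = a} ∈ U := by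
    intro v w hvw
    by_contra hcon
    push Not at hcon
    have h2 : ∀ a ∈ Finset.range n, {E : Finset (Sym2 V) | c E v w = a}ᶜ ∈ U := by
      intro a ha
      exact Ultrafilter.compl_mem_iff_notMem.2 (hcon a (Finset.mem_range.1 ha))
    have h3 : (⋂ a ∈ Finset.range n, {E : Finset (Sym2 V) | c E v w = a}ᶜ) ∈ (U : Filter _) :=
      (Filter.biInter_finset_mem _).2 h2
    have h4 := Filter.inter_mem h3 (hmem {s(v, w)})
    obtain ⟨E, hE1, hE2⟩ := U.nonempty_of_mem h4
    have hadj : (SimpleGraph.fromEdgeSet (↑E ∩ G.edgeSet)).Adj v w := by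
      rw [SimpleGraph.fromEdgeSet_adj]
      exact ⟨⟨hE2 (Finset.mem_singleton_self _), hvw⟩, G.ne_of_adj hvw⟩
    have h5 := (hc E).lt v w hadj
    rw [Set.mem_iInter₂] at hE1
    exact hE1 (c E v w) (Finset.mem_range.2 h5) rfl
  choose! f hf1 hf2 using hcol
  refine ⟨f, hf1, ?_, ?_⟩
  · intro v w hvw
    have h4 := Filter.inter_mem (Filter.inter_mem (hf2 v w hvw) (hf2 w v hvw.symm))
      (hmem {s(v, w)})
    obtain ⟨E, ⟨hE1, hE2⟩, hE3⟩ := U.nonempty_of_mem h4
    have hadj : (SimpleGraph.fromEdgeSet (↑E ∩ G.edgeSet)).Adj v w := by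
      rw [SimpleGraph.fromEdgeSet_adj]
      exact ⟨⟨hE3 (Finset.mem_singleton_self _), hvw⟩, G.ne_of_adj hvw⟩
    have h5 := (hc E).symm v w hadj
    have h6 : c E v w = f v w := hE1
    have h7 : c E w v = f w v := hE2
    rw [← h6, ← h7, h5]
  · intro v w w' hvw hvw' he
    have h4 := Filter.inter_mem (Filter.inter_mem (hf2 v w hvw) (hf2 v w' hvw'))
      (Filter.inter_mem (hmem {s(v, w)}) (hmem {s(v, w')}))
    obtain ⟨E, ⟨hE1, hE2⟩, hE3, hE4⟩ := U.nonempty_of_mem h4
    have hadj : (SimpleGraph.fromEdgeSet (↑E ∩ G.edgeSet)).Adj v w := by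
      rw [SimpleGraph.fromEdgeSet_adj]
      exact ⟨⟨hE3 (Finset.mem_singleton_self _), hvw⟩, G.ne_of_adj hvw⟩
    have hadj' : (SimpleGraph.fromEdgeSet (↑E ∩ G.edgeSet)).Adj v w' := by
      rw [SimpleGraph.fromEdgeSet_adj]
      exact ⟨⟨hE4 (Finset.mem_singleton_self _), hvw'⟩, G.ne_of_adj hvw'⟩
    have h6 : c E v w = f v w := hE1
    have h7 : c E v w' = f v w' := hE2
    exact (hc E).inj v w w' hadj hadj' (by rw [h6, h7, he])

/-- **chain lemma** -/
theorem chain_ec {G : SimpleGraph V} {pos : V → ℤ} {d : ℕ} (hG : ChainLike G pos d) :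
    EC G (d + 2) :=
  ec_compact fun F hF hfin => chain_finite hG _ F hF hfin rfl

/-- sums of edge colourings -/
theorem ec_sup {G G1 G2 : SimpleGraph V} {a b : ℕ} (h1 : EC G1 a) (h2 : EC G2 b)
    (h : G ≤ G1 ⊔ G2) : EC G (a + b) := by
  classical
  obtain ⟨c1, hc1⟩ := h1
  obtain ⟨c2, hc2⟩ := h2
  refine ⟨fun v w => if G1.Adj v w then c1 v w else a + c2 v w, ?_, ?_, ?_⟩
  · intro v w hvw
    show (if G1.Adj v w then c1 v w else a + c2 v w) < a + b
    split_ifs with h1
    · have := hc1.lt v w h1; omega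
    · have h3 : G2.Adj v w := by
        rcases h hvw with h3 | h3
        · exact absurd h3 h1
        · exact h3
      have := hc2.lt v w h3
      omega
  · intro v w hvw
    show (if G1.Adj v w then c1 v w else a + c2 v w) = (if G1.Adj w v then c1 w v else a + c2 w v)
    by_cases h1 : G1.Adj v w
    · rw [if_pos h1, if_pos h1.symm]; exact hc1.symm v w h1
    · rw [if_neg h1, if_neg (fun h => h1 h.symm)]
      have h3 : G2.Adj v w := by
        rcases h hvw with h3 | h3
        · exact absurd h3 h1
        · exact h3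
      rw [hc2.symm v w h3]
  · intro v w w' hvw hvw' he
    by_cases h1 : G1.Adj v w <;> by_cases h1' : G1.Adj v w'
    · simp only [h1, h1', if_true] at he
      exact hc1.inj v w w' h1 h1' he
    · simp only [h1, h1', if_true, if_false] at he
      have := hc1.lt v w h1
      omega
    · simp only [h1, h1', if_true, if_false] at he
      have := hc1.lt v w' h1'
      omega
    · simp only [h1, h1', if_false] at he
      have h3 : G2.Adj v w := by
        rcases h hvw with h3 | h3
        · exact absurd h3 h1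
        · exact h3
      have h3' : G2.Adj v w' := by
        rcases h hvw' with h3 | h3
        · exact absurd h3 h1'
        · exact h3
      exact hc2.inj v w w' h3 h3' (by omega)

end Pool.Q11.TwoEnd
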