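import Mathlib
import Pool.Agent.Q11.TwoEnd.Chain

/-!
# Regular bipartite relations split into bijections (König, locally finite case)
-/

namespace Pool.Q11.TwoEnd

open SimpleGraph

universe u v

/-- `d`-regular relation -/
def Reg {α : Type u} {β : Type v} (R : α → β → Prop) (d : ℕ) : Prop :=
  (∀ a, {b | R a b}.encard = d) ∧ (∀ b, {a | R a b}.encard = d)

theorem hall_inj {α : Type u} {β : Type v} {R : α → β → Prop} {d : ℕ} (hd : 1 ≤ d)
    (hR : Reg R d) : ∃ f : α → β, Function.Injective f ∧ ∀ a, R a (f a) := by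
  classical
  have hfin : ∀ a, {b | R a b}.Finite := fun a => Set.finite_of_encard_eq_coe (hR.1 a)
  have hfin' : ∀ b, {a | R a b}.Finite := fun b => Set.finite_of_encard_eq_coe (hR.2 b)
  have hc : ∀ a, (hfin a).toFinset.card = d := by
    intro a
    have h1 := hR.1 a
    rw [(hfin a).encard_eq_coe_toFinset_card] at h1
    exact_mod_cast h1
  have hc' : ∀ b, (hfin' b).toFinset.card = d := by
    intro b
    have h1 := hR.2 b
    rw [(hfin' b).encard_eq_coe_toFinset_card] at h1
    exact_mod_cast h1
  obtain ⟨f, hf, hf2⟩ := (Finset.all_card_le_biUnion_card_iff_exists_injective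
    (fun a => (hfin a).toFinset)).1 (by
      intro s
      have h := Finset.card_mul_le_card_mul (s := s) (t := s.biUnion fun a => (hfin a).toFinset) R
        (m := d) (n := d) ?_ ?_
      · exact Nat.le_of_mul_le_mul_right h (by omega)
      · intro a ha
        have h1 : (hfin a).toFinset ⊆ (s.biUnion fun a => (hfin a).toFinset).bipartiteAbove R a := by
          intro b hb
          rw [Finset.mem_bipartiteAbove]
          exact ⟨Finset.mem_biUnion.2 ⟨a, ha, hb⟩, (hfin a).mem_toFinset.1 hb⟩
        have h2 := Finset.card_le_card h1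
        rw [hc a] at h2
        exact h2
      · intro b _
        have h1 : s.bipartiteBelow R b ⊆ (hfin' b).toFinset := by
          intro a ha
          rw [Finset.mem_bipartiteBelow] at ha
          exact (hfin' b).mem_toFinset.2 ha.2
        have h2 := Finset.card_le_card h1
        rw [hc' b] at h2
        exact h2)
  exact ⟨f, hf, fun a => (hfin a).mem_toFinset.1 (hf2 a)⟩

/-- a perfect matching of a regular relation -/
theorem reg_matching {α : Type u} {β : Type v} {R : α → β → Prop} {d : ℕ} (hd : 1 ≤ d)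
    (hR : Reg R d) : ∃ e : α ≃ β, ∀ a, R a (e a) := by
  obtain ⟨f, hf, hf2⟩ := hall_inj hd hR
  obtain ⟨g, hg, hg2⟩ := hall_inj (R := fun b a => R a b) hd ⟨hR.2, hR.1⟩
  obtain ⟨h, hb, hh⟩ := Function.Embedding.schroeder_bernstein_of_rel hf hg R hf2 hg2
  exact ⟨Equiv.ofBijective h hb, hh⟩

theorem enat_cancel {a b : ℕ∞} (h : a + 1 = b + 1) : a = b := by
  have h1 : ∀ m : ℕ, (m : ℕ∞) + 1 = ((m + 1 : ℕ) : ℕ∞) := fun m => by push_cast; rfl
  rcases eq_or_ne a ⊤ with rfl | ha
  · rcases eq_or_ne b ⊤ with rfl | hb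
    · rfl
    · lift b to ℕ using hb
      rw [top_add, h1] at h
      exact absurd h (ENat.top_ne_natCast _)
  · lift a to ℕ using ha
    rcases eq_or_ne b ⊤ with rfl | hb
    · rw [top_add, h1] at h
      exact absurd h.symm (ENat.top_ne_natCast _)
    · lift b to ℕ using hb
      have : a + 1 = b + 1 := by exact_mod_cast h
      exact_mod_cast (by omega : a = b)

/-- removing a perfect matching -/
theorem reg_remove {α : Type u} {β : Type v} {R : α → β → Prop} {d : ℕ}
    (hR : Reg R (d + 1)) (e : α ≃ β) (he : ∀ a, R a (e a)) :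
    Reg (fun a b => R a b ∧ b ≠ e a) d := by
  constructor
  · intro a
    have h1 : {b | R a b ∧ b ≠ e a} = {b | R a b} \ {e a} := by
      ext b; simp
    have h2 := Set.encard_sdiff_singleton_add_one (s := {b | R a b}) (a := e a) (he a)
    rw [h1]
    rw [hR.1 a] at h2
    push_cast at h2
    exact enat_cancel h2
  · intro b
    have h1 : {a | R a b ∧ b ≠ e a} = {a | R a b} \ {e.symm b} := by
      ext a
      simp only [Set.mem_ofPred_eq, Set.mem_sdiff, Set.mem_singleton_iff]
      rw [Equiv.eq_symm_apply, ne_comm]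
    have h2 := Set.encard_sdiff_singleton_add_one (s := {a | R a b}) (a := e.symm b)
      (by have := he (e.symm b); rw [Equiv.apply_symm_apply] at this; exact this)
    rw [h1]
    rw [hR.2 b] at h2
    push_cast at h2
    exact enat_cancel h2

/-- a two colouring of a permutation all of whose orbits are infinite -/
theorem perm_parity {V : Type u} (e : V ≃ V) (pos : V → ℤ) (h : ∀ v, pos v < pos (e v)) :
    ∃ q : V → Bool, ∀ v, q (e v) = !(q v) := by
  classical
  -- the orbit relation
  let S : Setoid V := MulAction.orbitRel (Subgroup.zpowers (e : Equiv.Perm V)) V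
  have hpow : ∀ (v : V) (m : ℤ), 0 < m → pos v < pos (((e : Equiv.Perm V) ^ m) v) := by
    intro v m hm
    have h1 : ∀ (k : ℕ) (v : V), pos v < pos (((e : Equiv.Perm V) ^ (k + 1)) v) := by
      intro k
      induction k with
      | zero => intro v; simpa using h v
      | succ k ih =>
        intro v
        have h2 := ih v
        have h3 := h (((e : Equiv.Perm V) ^ (k + 1)) v)
        rw [pow_succ']
        exact h2.trans h3
    obtain ⟨k, rfl⟩ : ∃ k : ℕ, m = ((k + 1 : ℕ) : ℤ) := ⟨(m - 1).toNat, by omega⟩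
    rw [zpow_natCast]
    exact h1 k v
  have hfree : ∀ (v : V) (m m' : ℤ), ((e : Equiv.Perm V) ^ m) v = ((e : Equiv.Perm V) ^ m') v → m = m' := by
    have key : ∀ (v : V) (m m' : ℤ), m < m' →
        ((e : Equiv.Perm V) ^ m) v ≠ ((e : Equiv.Perm V) ^ m') v := by
      intro v m m' hlt heq
      have h1 := hpow (((e : Equiv.Perm V) ^ m) v) (m' - m) (by omega)
      rw [← Equiv.Perm.mul_apply, ← zpow_add, show m' - m + m = m' by ring, heq] at h1
      exact lt_irrefl _ h1
    intro v m m' heq
    rcases lt_trichotomy m m' with h1 | h1 | h1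
    · exact absurd heq (key v m m' h1)
    · exact h1
    · exact absurd heq.symm (key v m' m h1)
  have hrep : ∀ v : V, ∃ m : ℤ, v = ((e : Equiv.Perm V) ^ m) (Quotient.out (Quotient.mk S v)) := by
    intro v
    have h1 : S v (Quotient.out (Quotient.mk S v)) := Setoid.symm (Quotient.mk_out (s := S) v)
    obtain ⟨⟨g, hg⟩, hgv⟩ := h1
    obtain ⟨m, rfl⟩ := Subgroup.mem_zpowers_iff.1 hg
    exact ⟨m, hgv.symm⟩
  choose n hn using hrep
  refine ⟨fun v => decide (Even (n v)), fun v => ?_⟩
  have hq : Quotient.mk S (e v) = Quotient.mk S v := by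
    apply Quotient.sound
    exact ⟨⟨(e : Equiv.Perm V), Subgroup.mem_zpowers _⟩, rfl⟩
  have h1 := hn (e v)
  rw [hq] at h1
  have h2 : e v = ((e : Equiv.Perm V) ^ (n v + 1)) (Quotient.out (Quotient.mk S v)) := by
    have h4 : (e : Equiv.Perm V) ^ (n v + 1) = e * (e : Equiv.Perm V) ^ (n v) := by
      rw [add_comm, zpow_add, zpow_one]
    rw [h4, Equiv.Perm.mul_apply, ← hn v]
  have h3 := hfree _ _ _ (h1.symm.trans h2)
  show decide (Even (n (e v))) = !decide (Even (n v))
  rw [h3]
  by_cases h5 : Even (n v)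
  · simp [h5]
  · rw [Int.not_even_iff_odd] at h5
    simp [h5]

end Pool.Q11.TwoEnd
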