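import Mathlib
import Pool.Agent.Q11.TwoEnd.Match

/-!
# Edge colourings of regular bipartite graphs and of balanced levelled graphs
-/

namespace Pool.Q11.TwoEnd

open SimpleGraph

universe u

variable {V : Type u}

/-- the graph of a matching between the vertices of type `T` and the others -/
def MatchG (T : V → Prop) (e : {v // T v} ≃ {v // ¬ T v}) : SimpleGraph V :=
  SimpleGraph.fromRel (fun a b => ∃ h : T a, b = (e ⟨a, h⟩ : V))

theorem matchG_adj {T : V → Prop} {e : {v // T v} ≃ {v // ¬ T v}} {a b : V} :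
    (MatchG T e).Adj a b ↔ (∃ h : T a, b = (e ⟨a, h⟩ : V)) ∨ (∃ h : T b, a = (e ⟨b, h⟩ : V)) := by
  unfold MatchG
  rw [SimpleGraph.fromRel_adj]
  constructor
  · exact fun h => h.2
  · intro h
    refine ⟨?_, h⟩
    rintro rfl
    rcases h with ⟨h, h1⟩ | ⟨h, h1⟩
    · exact (e ⟨a, h⟩).2 (h1 ▸ h)
    · exact (e ⟨a, h⟩).2 (h1 ▸ h)

theorem matchG_adj_T {T : V → Prop} {e : {v // T v} ≃ {v // ¬ T v}} {a b : V} (ha : T a) :
    (MatchG T e).Adj a b ↔ b = (e ⟨a, ha⟩ : V) := by
  rw [matchG_adj]
  constructor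
  · rintro (⟨_, h⟩ | ⟨h, h1⟩)
    · exact h
    · exact absurd ha (by rw [h1]; exact (e ⟨b, h⟩).2)
  · exact fun h => Or.inl ⟨ha, h⟩

theorem matchG_adj_nT {T : V → Prop} {e : {v // T v} ≃ {v // ¬ T v}} {a b : V} (ha : ¬ T a) :
    (MatchG T e).Adj a b ↔ b = (e.symm ⟨a, ha⟩ : V) := by
  rw [matchG_adj]
  constructor
  · rintro (⟨h, _⟩ | ⟨h, h1⟩)
    · exact absurd h ha
    · have h2 : (⟨a, ha⟩ : {v // ¬ T v}) = e ⟨b, h⟩ := Subtype.ext h1
      rw [h2, Equiv.symm_apply_apply]
  · intro h
    have hb : T b := by rw [h]; exact (e.symm ⟨a, ha⟩).2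
    right
    refine ⟨hb, ?_⟩
    have h2 : (⟨b, hb⟩ : {v // T v}) = e.symm ⟨a, ha⟩ := Subtype.ext h
    rw [h2, Equiv.apply_symm_apply]

theorem matchG_unique {T : V → Prop} {e : {v // T v} ≃ {v // ¬ T v}} {v w w' : V}
    (h : (MatchG T e).Adj v w) (h' : (MatchG T e).Adj v w') : w = w' := by
  by_cases hv : T v
  · rw [matchG_adj_T hv] at h h'
    rw [h, h']
  · rw [matchG_adj_nT hv] at h h'
    rw [h, h']

theorem matchG_ec (T : V → Prop) (e : {v // T v} ≃ {v // ¬ T v}) : EC (MatchG T e) 1 :=
  ⟨fun _ _ => 0, fun _ _ _ => Nat.one_pos, fun _ _ _ => rfl,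
    fun _ _ _ h h' _ => matchG_unique h h'⟩

theorem reg_sdiff_match {T : V → Prop} {d : ℕ} {G : SimpleGraph V}
    (hR : Reg (fun (a : {v // T v}) (b : {v // ¬ T v}) => G.Adj (a : V) (b : V)) (d + 1))
    (e : {v // T v} ≃ {v // ¬ T v}) (he : ∀ a : {v // T v}, G.Adj (a : V) (e a : V)) :
    Reg (fun (a : {v // T v}) (b : {v // ¬ T v}) => (G \ MatchG T e).Adj (a : V) (b : V)) d := by
  have hR' := reg_remove hR e he
  have h2 : (fun (a : {v // T v}) (b : {v // ¬ T v}) => (G \ MatchG T e).Adj (a : V) (b : V)) =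
      (fun (a : {v // T v}) (b : {v // ¬ T v}) => G.Adj (a : V) (b : V) ∧ b ≠ e a) := by
    funext a b
    rw [SimpleGraph.sdiff_adj, matchG_adj_T a.2]
    apply propext
    constructor
    · rintro ⟨h3, h4⟩
      exact ⟨h3, fun h5 => h4 (by rw [h5])⟩
    · rintro ⟨h3, h4⟩
      exact ⟨h3, fun h5 => h4 (Subtype.ext h5)⟩
  rw [h2]
  exact hR'

/-- König: a `d`-regular bipartite graph has an edge colouring with `d` colours. -/
theorem ec_bip (T : V → Prop) : ∀ (d : ℕ) (G : SimpleGraph V),
    (∀ a b, G.Adj a b → (T a ↔ ¬ T b)) →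
    Reg (fun (a : {v // T v}) (b : {v // ¬ T v}) => G.Adj (a : V) (b : V)) d → EC G d := by
  intro d
  induction d with
  | zero =>
    intro G hG hR
    have h1 : ∀ a b, ¬ G.Adj a b := by
      intro a b hab
      have h0 := hG a b hab
      by_cases ha : T a
      · have h2 := hR.1 ⟨a, ha⟩
        rw [Nat.cast_zero, Set.encard_eq_zero] at h2
        have : (⟨b, h0.1 ha⟩ : {v // ¬ T v}) ∈ {b : {v // ¬ T v} | G.Adj a (b : V)} := hab
        rw [h2] at this
        exact this
      · have hb : T b := by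
          by_contra hb
          exact ha (h0.2 hb)
        have h2 := hR.2 ⟨a, ha⟩
        rw [Nat.cast_zero, Set.encard_eq_zero] at h2
        have : (⟨b, hb⟩ : {v // T v}) ∈ {b : {v // T v} | G.Adj (b : V) a} := hab.symm
        rw [h2] at this
        exact this
    exact ⟨fun _ _ => 0, fun v w h => absurd h (h1 v w), fun v w h => absurd h (h1 v w),
      fun v w _ h => absurd h (h1 v w)⟩
  | succ d ih =>
    intro G hG hR
    obtain ⟨e, he⟩ := reg_matching (by omega) hR
    have h1 : EC (G \ MatchG T e) d := by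
      apply ih
      · intro a b hab
        exact hG a b hab.1
      · exact reg_sdiff_match hR e he
    exact ec_sup h1 (matchG_ec T e) (by
      intro a b hab
      by_cases h : (MatchG T e).Adj a b
      · exact Or.inr h
      · exact Or.inl ⟨hab, h⟩)

/-- the graph of a level raising permutation -/
def PermG (e : V ≃ V) : SimpleGraph V := SimpleGraph.fromRel (fun a b => b = e a)

theorem permG_adj {e : V ≃ V} {a b : V} :
    (PermG e).Adj a b ↔ a ≠ b ∧ (b = e a ∨ a = e b) := by
  unfold PermG
  rw [SimpleGraph.fromRel_adj]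

theorem permG_adj' {e : V ≃ V} {pos : V → ℤ} (hpos : ∀ v, pos v < pos (e v)) {a b : V} :
    (PermG e).Adj a b ↔ (b = e a ∨ a = e b) := by
  rw [permG_adj]
  constructor
  · exact fun h => h.2
  · intro h
    refine ⟨?_, h⟩
    rintro rfl
    rcases h with h | h
    · have := hpos a; rw [← h] at this; exact lt_irrefl _ this
    · have := hpos a; rw [← h] at this; exact lt_irrefl _ this

theorem permG_ec (e : V ≃ V) (pos : V → ℤ) (hpos : ∀ v, pos v < pos (e v)) : EC (PermG e) 2 := by
  classical
  obtain ⟨q, hq⟩ := perm_parity e pos hpos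
  have key : ∀ a b, b = e a → a = e b → False := by
    intro a b h1 h2
    have h3 := hpos a
    have h4 := hpos b
    rw [← h1] at h3
    rw [← h2] at h4
    exact lt_asymm h3 h4
  refine ⟨fun v w => if w = e v then (q v).toNat else (q w).toNat, ?_, ?_, ?_⟩
  · intro v w _
    show (if w = e v then (q v).toNat else (q w).toNat) < 2
    split_ifs
    · cases q v <;> simp
    · cases q w <;> simp
  · intro v w h
    rw [permG_adj' hpos] at h
    show (if w = e v then (q v).toNat else (q w).toNat) = (if v = e w then (q w).toNat else (q v).toNat)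
    rcases h with h | h
    · rw [if_pos h, if_neg (fun h' => key v w h h')]
    · rw [if_pos h, if_neg (fun h' => key v w h' h)]
  · intro v w w' h h' he
    rw [permG_adj' hpos] at h h'
    have he' : (if w = e v then (q v).toNat else (q w).toNat) =
      (if w' = e v then (q v).toNat else (q w').toNat) := he
    rcases h with h | h <;> rcases h' with h' | h'
    · rw [h, h']
    · rw [if_pos h, if_neg (fun h3 => key v w' h3 h')] at he'
      have h4 := hq w'
      rw [← h'] at h4
      rw [h4] at he'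
      cases hh : q w' <;> simp [hh] at he'
    · rw [if_neg (fun h3 => key v w h3 h), if_pos h'] at he'
      have h4 := hq w
      rw [← h] at h4
      rw [h4] at he'
      cases hh : q w <;> simp [hh] at he'
    · exact e.injective (h.symm.trans h')

theorem reg_sdiff_perm {pos : V → ℤ} {d : ℕ} {G : SimpleGraph V}
    (hR : Reg (fun (a b : V) => G.Adj a b ∧ pos a < pos b) (d + 1))
    (e : V ≃ V) (he : ∀ a, G.Adj a (e a) ∧ pos a < pos (e a)) :
    Reg (fun (a b : V) => (G \ PermG e).Adj a b ∧ pos a < pos b) d := by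
  have hpos : ∀ v, pos v < pos (e v) := fun v => (he v).2
  have hR' := reg_remove hR e he
  have h2 : (fun (a b : V) => (G \ PermG e).Adj a b ∧ pos a < pos b) =
      (fun (a b : V) => (G.Adj a b ∧ pos a < pos b) ∧ b ≠ e a) := by
    funext a b
    rw [SimpleGraph.sdiff_adj, permG_adj' hpos]
    apply propext
    constructor
    · rintro ⟨⟨h3, h4⟩, h5⟩
      exact ⟨⟨h3, h5⟩, fun h6 => h4 (Or.inl h6)⟩
    · rintro ⟨⟨h3, h5⟩, h4⟩
      refine ⟨⟨h3, ?_⟩, h5⟩
      rintro (h6 | h6)
      · exact h4 h6
      · have := hpos b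
        rw [← h6] at this
        exact lt_asymm h5 this
  rw [h2]
  exact hR'

/-- a balanced levelled graph with up-degree `d` has an edge colouring with `2 d` colours -/
theorem ec_dir (pos : V → ℤ) : ∀ (d : ℕ) (G : SimpleGraph V),
    (∀ a b, G.Adj a b → pos a ≠ pos b) →
    Reg (fun (a b : V) => G.Adj a b ∧ pos a < pos b) d → EC G (2 * d) := by
  intro d
  induction d with
  | zero =>
    intro G hG hR
    have h1 : ∀ a b, ¬ G.Adj a b := by
      intro a b hab
      rcases lt_or_gt_of_ne (hG a b hab) with h | h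
      · have h2 := hR.1 a
        rw [Nat.cast_zero, Set.encard_eq_zero] at h2
        have : b ∈ {b | G.Adj a b ∧ pos a < pos b} := ⟨hab, h⟩
        rw [h2] at this
        exact this
      · have h2 := hR.1 b
        rw [Nat.cast_zero, Set.encard_eq_zero] at h2
        have : a ∈ {a | G.Adj b a ∧ pos b < pos a} := ⟨hab.symm, h⟩
        rw [h2] at this
        exact this
    exact ⟨fun _ _ => 0, fun v w h => absurd h (h1 v w), fun v w h => absurd h (h1 v w),
      fun v w _ h => absurd h (h1 v w)⟩
  | succ d ih =>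
    intro G hG hR
    obtain ⟨e, he⟩ := reg_matching (by omega) hR
    have hpos : ∀ v, pos v < pos (e v) := fun v => (he v).2
    have h1 : EC (G \ PermG e) (2 * d) := by
      apply ih
      · intro a b hab
        exact hG a b hab.1
      · exact reg_sdiff_perm hR e he
    have h3 := ec_sup h1 (permG_ec e pos hpos) (G := G) (by
      intro a b hab
      by_cases h : (PermG e).Adj a b
      · exact Or.inr h
      · exact Or.inl ⟨hab, h⟩)
    have h4 : 2 * d + 2 = 2 * (d + 1) := by ring
    rw [h4] at h3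
    exact h3

end Pool.Q11.TwoEnd
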