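import Mathlib
import Pool.Agent.Q11.TwoEnd.Konig

/-!
# From a level structure to an edge colouring
-/

namespace Pool.Q11.TwoEnd

open SimpleGraph

universe u

variable {V : Type u}

/-- a level structure with at most two types of vertices -/
structure Lev (G : SimpleGraph V) (T : V → Prop) (ℓ : V → ℤ) : Prop where
  same : ∀ v w, (T v ↔ T w) → ∃ g : G ≃g G, g v = w ∧
    ∀ x, (T (g x) ↔ T x) ∧ ℓ (g x) = ℓ x + (ℓ w - ℓ v)
  flip : ∀ v w, ¬ (T v ↔ T w) → ∃ g : G ≃g G, g v = w ∧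
    ∀ x, (T (g x) ↔ ¬ T x) ∧ ℓ (g x) = - ℓ x + (ℓ w + ℓ v)
  fin : ∀ i, {v | ℓ v = i}.Finite

theorem count_le {G : SimpleGraph V} [G.LocallyFinite] (g : G ≃g G) {v w : V} (hg : g v = w)
    (P Q : V → Prop) (h : ∀ x, G.Adj v x → P x → Q (g x)) :
    {x | G.Adj v x ∧ P x}.ncard ≤ {x | G.Adj w x ∧ Q x}.ncard := by
  refine Set.ncard_le_ncard_of_injOn g ?_ (g.injective.injOn) ?_
  · rintro x ⟨hx1, hx2⟩
    refine ⟨?_, h x hx1 hx2⟩
    rw [← hg]
    exact g.map_adj_iff.2 hx1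
  · exact ((G.neighborSet w).toFinite).subset fun x hx => hx.1

theorem nfin (G : SimpleGraph V) [G.LocallyFinite] (v : V) (P : V → Prop) :
    {x | G.Adj v x ∧ P x}.Finite := ((G.neighborSet v).toFinite).subset fun _ hx => hx.1

section

variable {G : SimpleGraph V} [G.LocallyFinite] {T : V → Prop} {ℓ : V → ℤ}

/-- neighbours at the same type at relative level `s` -/
def rel (G : SimpleGraph V) (T : V → Prop) (ℓ : V → ℤ) (v : V) (s : ℤ) : Set V :=
  {x | G.Adj v x ∧ ((T x ↔ T v) ∧ ℓ x - ℓ v = s)}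

theorem rel_same_le (hL : Lev G T ℓ) {v w : V} (h : T v ↔ T w) (s : ℤ) :
    (rel G T ℓ v s).ncard ≤ (rel G T ℓ w s).ncard := by
  obtain ⟨g, hg, hg2⟩ := hL.same v w h
  refine count_le g hg _ _ ?_
  rintro x _ ⟨h1, h2⟩
  have h3 := hg2 x
  refine ⟨by rw [h3.1, h1, h], by rw [h3.2]; omega⟩

theorem rel_same (hL : Lev G T ℓ) {v w : V} (h : T v ↔ T w) (s : ℤ) :
    (rel G T ℓ v s).ncard = (rel G T ℓ w s).ncard :=
  le_antisymm (rel_same_le hL h s) (rel_same_le hL h.symm s)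

theorem rel_flip_le (hL : Lev G T ℓ) {v w : V} (h : ¬ (T v ↔ T w)) (s : ℤ) :
    (rel G T ℓ v s).ncard ≤ (rel G T ℓ w (-s)).ncard := by
  obtain ⟨g, hg, hg2⟩ := hL.flip v w h
  refine count_le g hg _ _ ?_
  rintro x _ ⟨h1, h2⟩
  have h3 := hg2 x
  refine ⟨by rw [h3.1, h1]; tauto, by rw [h3.2]; omega⟩

theorem rel_flip (hL : Lev G T ℓ) {v w : V} (h : ¬ (T v ↔ T w)) (s : ℤ) :
    (rel G T ℓ v s).ncard = (rel G T ℓ w (-s)).ncard := by
  refine le_antisymm (rel_flip_le hL h s) ?_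
  have := rel_flip_le hL (v := w) (w := v) (fun h' => h h'.symm) (-s)
  rwa [neg_neg] at this

theorem rel_neg_le (hL : Lev G T ℓ) (v : V) (s : ℤ) :
    (rel G T ℓ v s).ncard ≤ (rel G T ℓ v (-s)).ncard := by
  classical
  rcases (rel G T ℓ v s).eq_empty_or_nonempty with h0 | ⟨x, hx⟩
  · rw [h0, Set.ncard_empty]; exact Nat.zero_le _
  have hxT : T x ↔ T v := hx.2.1
  have hxl : ℓ x = ℓ v + s := by have := hx.2.2; omega
  -- the blocks
  have hfin0 : {y | ℓ y = ℓ v ∧ (T y ↔ T v)}.Finite := (hL.fin (ℓ v)).subset fun y hy => hy.1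
  have hfin1 : {y | ℓ y = ℓ v + s ∧ (T y ↔ T v)}.Finite :=
    (hL.fin (ℓ v + s)).subset fun y hy => hy.1
  have hcard : hfin1.toFinset.card ≤ hfin0.toFinset.card := by
    obtain ⟨g, hg, hg2⟩ := hL.same x v hxT
    refine Finset.card_le_card_of_injOn g ?_ (g.injective.injOn)
    intro y hy
    have hy' : ℓ y = ℓ v + s ∧ (T y ↔ T v) := hfin1.mem_toFinset.1 hy
    refine hfin0.mem_toFinset.2 ⟨?_, ?_⟩
    · rw [(hg2 y).2]; omega
    · rw [(hg2 y).1]; exact hy'.2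
  have hpos : 0 < hfin1.toFinset.card := by
    rw [Finset.card_pos]
    exact ⟨x, hfin1.mem_toFinset.2 ⟨hxl, hxT⟩⟩
  have hdc := Finset.card_mul_eq_card_mul (s := hfin0.toFinset) (t := hfin1.toFinset) G.Adj
    (m := (rel G T ℓ v s).ncard) (n := (rel G T ℓ v (-s)).ncard) ?_ ?_
  · have h1 : hfin1.toFinset.card * (rel G T ℓ v s).ncard ≤
        hfin0.toFinset.card * (rel G T ℓ v s).ncard := Nat.mul_le_mul_right _ hcard
    rw [hdc] at h1
    exact Nat.le_of_mul_le_mul_left h1 hpos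
  · intro a ha
    have ha' : ℓ a = ℓ v ∧ (T a ↔ T v) := hfin0.mem_toFinset.1 ha
    rw [← rel_same hL ha'.2 s]
    rw [← Set.ncard_coe_finset]
    congr 1
    ext b
    simp only [Finset.mem_coe, Finset.mem_bipartiteAbove, Set.Finite.mem_toFinset]
    constructor
    · rintro ⟨⟨h1, h2⟩, h3⟩
      exact ⟨h3, by rw [h2, ha'.2], by omega⟩
    · rintro ⟨h3, h2, h1⟩
      exact ⟨⟨by omega, by rw [h2, ha'.2]⟩, h3⟩
  · intro b hb
    have hb' : ℓ b = ℓ v + s ∧ (T b ↔ T v) := hfin1.mem_toFinset.1 hb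
    rw [← rel_same hL hb'.2 (-s)]
    rw [← Set.ncard_coe_finset]
    congr 1
    ext a
    simp only [Finset.mem_coe, Finset.mem_bipartiteBelow, Set.Finite.mem_toFinset]
    constructor
    · rintro ⟨⟨h1, h2⟩, h3⟩
      exact ⟨h3.symm, by rw [h2, hb'.2], by omega⟩
    · rintro ⟨h3, h2, h1⟩
      exact ⟨⟨by omega, by rw [h2, hb'.2]⟩, h3.symm⟩

theorem rel_neg (hL : Lev G T ℓ) (v : V) (s : ℤ) :
    (rel G T ℓ v s).ncard = (rel G T ℓ v (-s)).ncard := by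
  refine le_antisymm (rel_neg_le hL v s) ?_
  have := rel_neg_le hL v (-s)
  rwa [neg_neg] at this

theorem rel_const (hL : Lev G T ℓ) (v w : V) (s : ℤ) :
    (rel G T ℓ v s).ncard = (rel G T ℓ w s).ncard := by
  by_cases h : T v ↔ T w
  · exact rel_same hL h s
  · rw [rel_flip hL h s, ← rel_neg hL]

/-- up and down neighbours -/
def upN (G : SimpleGraph V) (T : V → Prop) (ℓ : V → ℤ) (v : V) : Set V :=
  {x | G.Adj v x ∧ ((T x ↔ T v) ∧ ℓ v < ℓ x)}

def dnN (G : SimpleGraph V) (T : V → Prop) (ℓ : V → ℤ) (v : V) : Set V :=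
  {x | G.Adj v x ∧ ((T x ↔ T v) ∧ ℓ x < ℓ v)}

/-- summation over the levels -/
theorem sum_levels (v : V) (f : ℤ → Prop) (M : ℕ)
    (hM : ∀ x, G.Adj v x → (T x ↔ T v) → f (ℓ x - ℓ v) → ℓ x - ℓ v ∈ Finset.Icc (-(M : ℤ)) M) :
    {x | G.Adj v x ∧ ((T x ↔ T v) ∧ f (ℓ x - ℓ v))}.ncard =
      ∑ s ∈ (Finset.Icc (-(M : ℤ)) M), (open Classical in if f s then (rel G T ℓ v s).ncard else 0) := by
  classical
  have hfin := nfin G v (fun x => (T x ↔ T v) ∧ f (ℓ x - ℓ v))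
  rw [Set.ncard_eq_toFinset_card _ hfin]
  rw [Finset.card_eq_sum_card_fiberwise (f := fun x => ℓ x - ℓ v) (t := Finset.Icc (-(M : ℤ)) M)]
  · apply Finset.sum_congr rfl
    intro s _
    split_ifs with hs
    · rw [← Set.ncard_coe_finset]
      congr 1
      ext x
      simp only [Finset.coe_filter, Set.Finite.mem_toFinset, Set.mem_ofPred_eq, rel]
      constructor
      · rintro ⟨⟨h1, h2, _⟩, h3⟩
        exact ⟨h1, h2, h3⟩
      · rintro ⟨h1, h2, h3⟩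
        exact ⟨⟨h1, h2, by rw [h3]; exact hs⟩, h3⟩
    · rw [Finset.card_eq_zero, Finset.filter_eq_empty_iff]
      intro x hx h3
      have := (hfin.mem_toFinset.1 hx).2.2
      rw [h3] at this
      exact hs this
  · intro x hx
    have h1 := hfin.mem_toFinset.1 hx
    exact hM x h1.1 h1.2.1 h1.2.2

/-- a uniform bound for the level differences at a vertex -/
theorem level_bound (v : V) : ∃ M : ℕ, ∀ x, G.Adj v x → ℓ x - ℓ v ∈ Finset.Icc (-(M : ℤ)) M := by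
  classical
  refine ⟨(G.neighborFinset v).sup fun x => (ℓ x - ℓ v).natAbs, ?_⟩
  intro x hx
  have h1 : (ℓ x - ℓ v).natAbs ≤ (G.neighborFinset v).sup fun x => (ℓ x - ℓ v).natAbs :=
    Finset.le_sup (f := fun x => (ℓ x - ℓ v).natAbs) ((G.mem_neighborFinset v x).2 hx)
  rw [Finset.mem_Icc]
  omega

theorem up_eq_sum (hL : Lev G T ℓ) (v : V) (M : ℕ)
    (hM : ∀ x, G.Adj v x → ℓ x - ℓ v ∈ Finset.Icc (-(M : ℤ)) M) :
    (upN G T ℓ v).ncard =
      ∑ s ∈ (Finset.Icc (-(M : ℤ)) M), if 0 < s then (rel G T ℓ v s).ncard else 0 := by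
  classical
  have h1 := sum_levels (G := G) (T := T) (ℓ := ℓ) v (fun s => 0 < s) M (fun x hx _ _ => hM x hx)
  have h2 : upN G T ℓ v = {x | G.Adj v x ∧ ((T x ↔ T v) ∧ 0 < (ℓ x - ℓ v))} := by
    ext x
    simp only [upN, Set.mem_ofPred_eq, sub_pos]
  rw [h2, h1]
  apply Finset.sum_congr rfl
  intro s _
  congr

theorem dn_eq_sum (hL : Lev G T ℓ) (v : V) (M : ℕ)
    (hM : ∀ x, G.Adj v x → ℓ x - ℓ v ∈ Finset.Icc (-(M : ℤ)) M) :
    (dnN G T ℓ v).ncard =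
      ∑ s ∈ (Finset.Icc (-(M : ℤ)) M), if 0 < s then (rel G T ℓ v s).ncard else 0 := by
  classical
  have h1 := sum_levels (G := G) (T := T) (ℓ := ℓ) v (fun s => s < 0) M (fun x hx _ _ => hM x hx)
  have h2 : dnN G T ℓ v = {x | G.Adj v x ∧ ((T x ↔ T v) ∧ (ℓ x - ℓ v) < 0)} := by
    ext x
    simp only [dnN, Set.mem_ofPred_eq, sub_neg]
  rw [h2, h1]
  refine Finset.sum_nbij' (fun s => -s) (fun s => -s) ?_ ?_ ?_ ?_ ?_
  · intro s hs; rw [Finset.mem_Icc] at hs ⊢; omega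
  · intro s hs; rw [Finset.mem_Icc] at hs ⊢; omega
  · intro s _; exact neg_neg s
  · intro s _; exact neg_neg s
  · intro s _
    by_cases h : s < 0
    · rw [if_pos h, if_pos (by omega)]
      exact rel_neg hL v s
    · rw [if_neg h, if_neg (by omega)]

theorem up_const (hL : Lev G T ℓ) (v w : V) : (upN G T ℓ v).ncard = (upN G T ℓ w).ncard := by
  obtain ⟨M1, hM1⟩ := level_bound (G := G) (ℓ := ℓ) v
  obtain ⟨M2, hM2⟩ := level_bound (G := G) (ℓ := ℓ) w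
  have h1 : ∀ x, G.Adj v x → ℓ x - ℓ v ∈ Finset.Icc (-((max M1 M2 : ℕ) : ℤ)) (max M1 M2 : ℕ) := by
    intro x hx
    have := hM1 x hx
    rw [Finset.mem_Icc] at this ⊢
    push_cast
    omega
  have h2 : ∀ x, G.Adj w x → ℓ x - ℓ w ∈ Finset.Icc (-((max M1 M2 : ℕ) : ℤ)) (max M1 M2 : ℕ) := by
    intro x hx
    have := hM2 x hx
    rw [Finset.mem_Icc] at this ⊢
    push_cast
    omega
  rw [up_eq_sum hL v _ h1, up_eq_sum hL w _ h2]
  apply Finset.sum_congr rfl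
  intro s _
  rw [rel_const hL v w s]

theorem up_eq_dn (hL : Lev G T ℓ) (v : V) : (upN G T ℓ v).ncard = (dnN G T ℓ v).ncard := by
  obtain ⟨M1, hM1⟩ := level_bound (G := G) (ℓ := ℓ) v
  rw [up_eq_sum hL v _ hM1, dn_eq_sum hL v _ hM1]

end

end Pool.Q11.TwoEnd
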