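import Mathlib
import Pool.Agent.Q11.TwoEnd.Assemble

/-!
# From a level structure to an edge colouring: the final count
-/

namespace Pool.Q11.TwoEnd

open SimpleGraph

universe u

variable {V : Type u}

/-- edges inside a block -/
def HG (G : SimpleGraph V) (T : V → Prop) (ℓ : V → ℤ) : SimpleGraph V where
  Adj a b := G.Adj a b ∧ (T a ↔ T b) ∧ ℓ a = ℓ b
  symm := ⟨fun _ _ h => ⟨h.1.symm, h.2.1.symm, h.2.2.symm⟩⟩
  loopless := ⟨fun a h => G.loopless.irrefl a h.1⟩

/-- edges inside a type between different levels -/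
def UG (G : SimpleGraph V) (T : V → Prop) (ℓ : V → ℤ) : SimpleGraph V where
  Adj a b := G.Adj a b ∧ (T a ↔ T b) ∧ ℓ a ≠ ℓ b
  symm := ⟨fun _ _ h => ⟨h.1.symm, h.2.1.symm, h.2.2.symm⟩⟩
  loopless := ⟨fun a h => G.loopless.irrefl a h.1⟩

/-- edges between the types with level difference in `D` -/
def XG (G : SimpleGraph V) (T : V → Prop) (ℓ : V → ℤ) (D : ℤ → Prop) : SimpleGraph V where
  Adj a b := G.Adj a b ∧ ((T a ∧ ¬ T b ∧ D (ℓ b - ℓ a)) ∨ (T b ∧ ¬ T a ∧ D (ℓ a - ℓ b)))
  symm := ⟨fun _ _ h => ⟨h.1.symm, h.2.symm⟩⟩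
  loopless := ⟨fun a h => G.loopless.irrefl a h.1⟩

variable {G : SimpleGraph V} [G.LocallyFinite] {T : V → Prop} {ℓ : V → ℤ}

/-- neighbours of the other type with level difference in `D` -/
def xN (G : SimpleGraph V) (T : V → Prop) (ℓ : V → ℤ) (D : ℤ → Prop) (v : V) : Set V :=
  {x | G.Adj v x ∧ ((T v ∧ ¬ T x ∧ D (ℓ x - ℓ v)) ∨ (T x ∧ ¬ T v ∧ D (ℓ v - ℓ x)))}

theorem xfin (D : ℤ → Prop) (v : V) : (xN G T ℓ D v).Finite := nfin G v _
theorem ufin (v : V) : (upN G T ℓ v).Finite := nfin G v _
theorem dfin (v : V) : (dnN G T ℓ v).Finite := nfin G v _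

theorem x_le (hL : Lev G T ℓ) (D : ℤ → Prop) (v w : V) :
    (xN G T ℓ D v).ncard ≤ (xN G T ℓ D w).ncard := by
  by_cases h : T v ↔ T w
  · obtain ⟨g, hg, hg2⟩ := hL.same v w h
    refine count_le g hg _ _ ?_
    intro x _ hx
    have h3 := hg2 x
    rcases hx with ⟨h4, h5, h6⟩ | ⟨h4, h5, h6⟩
    · left
      refine ⟨h.1 h4, by rw [h3.1]; exact h5, ?_⟩
      rw [h3.2, show ℓ x + (ℓ w - ℓ v) - ℓ w = ℓ x - ℓ v by ring]
      exact h6
    · right
      refine ⟨by rw [h3.1]; exact h4, fun h7 => h5 (h.2 h7), ?_⟩
      rw [h3.2, show ℓ w - (ℓ x + (ℓ w - ℓ v)) = ℓ v - ℓ x by ring]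
      exact h6
  · obtain ⟨g, hg, hg2⟩ := hL.flip v w h
    refine count_le g hg _ _ ?_
    intro x _ hx
    have h3 := hg2 x
    rcases hx with ⟨h4, h5, h6⟩ | ⟨h4, h5, h6⟩
    · right
      refine ⟨by rw [h3.1]; exact h5, fun h7 => h ⟨fun _ => h7, fun _ => h4⟩, ?_⟩
      rw [h3.2, show ℓ w - (-ℓ x + (ℓ w + ℓ v)) = ℓ x - ℓ v by ring]
      exact h6
    · left
      refine ⟨?_, by rw [h3.1]; exact fun h7 => h7 h4, ?_⟩
      · by_contra h7; exact h ⟨fun h8 => absurd h8 h5, fun h8 => absurd h8 h7⟩
      · rw [h3.2, show -ℓ x + (ℓ w + ℓ v) - ℓ w = ℓ v - ℓ x by ring]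
        exact h6

theorem x_const (hL : Lev G T ℓ) (D : ℤ → Prop) (v w : V) :
    (xN G T ℓ D v).ncard = (xN G T ℓ D w).ncard :=
  le_antisymm (x_le hL D v w) (x_le hL D w v)

theorem x_reg (hL : Lev G T ℓ) (D : ℤ → Prop) (v0 : V) :
    Reg (fun (a : {v // T v}) (b : {v // ¬ T v}) => (XG G T ℓ D).Adj (a : V) (b : V))
      (xN G T ℓ D v0).ncard := by
  constructor
  · intro a
    have h1 : (Subtype.val '' {b : {v // ¬ T v} | (XG G T ℓ D).Adj (a : V) (b : V)}) =
        xN G T ℓ D a := by
      ext x
      constructor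
      · rintro ⟨b, hb, rfl⟩
        exact hb
      · intro hx
        have hTx : ¬ T x := by
          rcases hx.2 with h | h
          · exact h.2.1
          · exact absurd a.2 h.2.1
        exact ⟨⟨x, hTx⟩, hx, rfl⟩
    rw [← Subtype.val_injective.encard_image, h1, ← x_const hL D a v0,
      Set.Finite.cast_ncard_eq (xfin D (a : V))]
  · intro b
    have h1 : (Subtype.val '' {a : {v // T v} | (XG G T ℓ D).Adj (a : V) (b : V)}) =
        xN G T ℓ D b := by
      ext x
      constructor
      · rintro ⟨a, ha, rfl⟩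
        exact (XG G T ℓ D).symm.symm _ _ ha
      · intro hx
        have hTx : T x := by
          rcases hx.2 with h | h
          · exact absurd h.1 b.2
          · exact h.1
        exact ⟨⟨x, hTx⟩, (XG G T ℓ D).symm.symm _ _ hx, rfl⟩
    rw [← Subtype.val_injective.encard_image, h1, ← x_const hL D b v0,
      Set.Finite.cast_ncard_eq (xfin D (b : V))]

omit [G.LocallyFinite] in
theorem xg_bip (D : ℤ → Prop) (a b : V) (h : (XG G T ℓ D).Adj a b) : T a ↔ ¬ T b := by
  rcases h.2 with h1 | h1
  · exact ⟨fun _ => h1.2.1, fun _ => h1.1⟩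
  · exact ⟨fun h2 => absurd h2 h1.2.1, fun h2 => absurd h1.1 h2⟩

theorem u_reg (hL : Lev G T ℓ) (v0 : V) :
    Reg (fun (a b : V) => (UG G T ℓ).Adj a b ∧ ℓ a < ℓ b) (upN G T ℓ v0).ncard := by
  constructor
  · intro a
    have h1 : {b | (UG G T ℓ).Adj a b ∧ ℓ a < ℓ b} = upN G T ℓ a := by
      ext x
      constructor
      · rintro ⟨⟨h1, h2, _⟩, h4⟩
        exact ⟨h1, h2.symm, h4⟩
      · rintro ⟨h1, h2, h4⟩
        exact ⟨⟨h1, h2.symm, ne_of_lt h4⟩, h4⟩
    rw [h1, ← up_const hL a v0, Set.Finite.cast_ncard_eq (ufin a)]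
  · intro b
    have h1 : {a | (UG G T ℓ).Adj a b ∧ ℓ a < ℓ b} = dnN G T ℓ b := by
      ext x
      constructor
      · rintro ⟨⟨h1, h2, _⟩, h4⟩
        exact ⟨h1.symm, h2, h4⟩
      · rintro ⟨h1, h2, h4⟩
        exact ⟨⟨h1.symm, h2, ne_of_lt h4⟩, h4⟩
    rw [h1, ← up_const hL b v0, up_eq_dn hL b, Set.Finite.cast_ncard_eq (dfin b)]

/-- the number of neighbours is the sum of the parts -/
theorem total_count (v : V) :
    (G.neighborSet v).ncard = (rel G T ℓ v 0).ncard + (upN G T ℓ v).ncard + (dnN G T ℓ v).ncard +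
      (xN G T ℓ (fun _ => True) v).ncard := by
  have h1 : G.neighborSet v = ((rel G T ℓ v 0 ∪ upN G T ℓ v) ∪ dnN G T ℓ v) ∪
      xN G T ℓ (fun _ => True) v := by
    ext x
    simp only [mem_neighborSet, Set.mem_union, rel, upN, dnN, xN, Set.mem_ofPred_eq]
    constructor
    · intro h
      by_cases h2 : T x ↔ T v
      · left
        rcases lt_trichotomy (ℓ x) (ℓ v) with h3 | h3 | h3
        · exact Or.inr ⟨h, h2, h3⟩
        · exact Or.inl (Or.inl ⟨h, h2, by omega⟩)
        · exact Or.inl (Or.inr ⟨h, h2, h3⟩)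
      · right
        refine ⟨h, ?_⟩
        tauto
    · rintro (((h | h) | h) | h)
      · exact h.1
      · exact h.1
      · exact h.1
      · exact h.1
  rw [h1]
  have f1 : (rel G T ℓ v 0).Finite := nfin G v _
  have f2 : (upN G T ℓ v).Finite := nfin G v _
  have f3 : (dnN G T ℓ v).Finite := nfin G v _
  have f4 : (xN G T ℓ (fun _ => True) v).Finite := nfin G v _
  rw [Set.ncard_union_eq _ ((f1.union f2).union f3) f4, Set.ncard_union_eq _ (f1.union f2) f3,
    Set.ncard_union_eq _ f1 f2]
  · rw [Set.disjoint_left]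
    rintro x ⟨_, _, h⟩ ⟨_, _, h'⟩
    omega
  · rw [Set.disjoint_left]
    rintro x (⟨_, _, h⟩ | ⟨_, _, h⟩) ⟨_, _, h'⟩
    · omega
    · omega
  · rw [Set.disjoint_left]
    rintro x ((⟨_, h, _⟩ | ⟨_, h, _⟩) | ⟨_, h, _⟩) ⟨_, h'⟩ <;> tauto

theorem x_split (v : V) (D : ℤ → Prop) :
    (xN G T ℓ (fun _ => True) v).ncard = (xN G T ℓ D v).ncard + (xN G T ℓ (fun s => ¬ D s) v).ncard := by
  have h1 : xN G T ℓ (fun _ => True) v = xN G T ℓ D v ∪ xN G T ℓ (fun s => ¬ D s) v := by
    ext x
    simp only [xN, Set.mem_union, Set.mem_ofPred_eq]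
    tauto
  rw [h1, Set.ncard_union_eq _ (xfin D v) (xfin _ v)]
  rw [Set.disjoint_left]
  rintro x ⟨_, h⟩ ⟨_, h'⟩
  tauto

omit [G.LocallyFinite] in
/-- connectivity: a function constant along the edges is constant -/
theorem const_of_connected (hG : G.Connected) {α : Type*} (f : V → α)
    (h : ∀ a b, G.Adj a b → f a = f b) (v w : V) : f v = f w := by
  obtain ⟨p⟩ := hG.preconnected v w
  induction p with
  | nil => rfl
  | cons h1 _ ih => exact (h _ _ h1).trans ih

/-- **assembly** -/
theorem ec_of_lev [Infinite V] (hL : Lev G T ℓ) (hconn : G.Connected) (k : ℕ)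
    (hk : ∀ v, (G.neighborSet v).ncard = k) : EC G k := by
  classical
  obtain ⟨v0⟩ := hconn.nonempty
  have htot := total_count (G := G) (T := T) (ℓ := ℓ) v0
  rw [hk v0, ← up_eq_dn hL v0] at htot
  have hzero : ∀ v, {w | (HG G T ℓ).Adj v w}.Finite ∧
      {w | (HG G T ℓ).Adj v w}.ncard = (rel G T ℓ v0 0).ncard := by
    intro v
    have h1 : {w | (HG G T ℓ).Adj v w} = rel G T ℓ v 0 := by
      ext w
      constructor
      · rintro ⟨h1, h2, h3⟩
        exact ⟨h1, h2.symm, by omega⟩
      · rintro ⟨h1, h2, h3⟩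
        exact ⟨h1, h2.symm, by omega⟩
    rw [h1]
    exact ⟨nfin G v _, rel_const hL v v0 0⟩
  rcases Nat.eq_zero_or_pos (upN G T ℓ v0).ncard with hu | hu
  · -- no edges inside a type between different levels
    have hUno : ∀ a b, ¬ (UG G T ℓ).Adj a b := by
      intro a b hab
      have key : ∀ a b, (UG G T ℓ).Adj a b → ℓ a < ℓ b → False := by
        intro a b hab hlt
        have h1 : b ∈ upN G T ℓ a := ⟨hab.1, hab.2.1.symm, hlt⟩
        have h2 : (upN G T ℓ a).ncard = 0 := by rw [up_const hL a v0]; exact hu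
        rw [Set.ncard_eq_zero (ufin a)] at h2
        rw [h2] at h1
        exact h1
      rcases lt_or_gt_of_ne hab.2.2 with h | h
      · exact key a b hab h
      · exact key b a ((UG G T ℓ).symm.symm _ _ hab) h
    -- two cross neighbours with different level differences
    obtain ⟨s1, v1, hlow, hhigh⟩ : ∃ (s1 : ℤ) (v1 : V), (xN G T ℓ (fun s => ¬ s1 < s) v1).Nonempty ∧
        (xN G T ℓ (fun s => s1 < s) v1).Nonempty := by
      by_contra hcon
      push Not at hcon
      -- all cross edges at a vertex have the same difference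
      have hone : ∀ s v, (xN G T ℓ (fun t => t = s) v).Nonempty →
          ∀ t w, (xN G T ℓ (fun r => r = t) w).Nonempty → s = t := by
        intro s v hs t w ht
        have ht' : (xN G T ℓ (fun r => r = t) v).Nonempty := by
          have h1 := x_const hL (fun r => r = t) v w
          have h2 : 0 < (xN G T ℓ (fun r => r = t) w).ncard :=
            (Set.ncard_pos (nfin G w _)).2 ht
          rw [← h1] at h2
          exact (Set.ncard_pos (nfin G v _)).1 h2
        have mono : ∀ (D D' : ℤ → Prop) (_ : ∀ r, D r → D' r), (xN G T ℓ D v).Nonempty →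
            (xN G T ℓ D' v).Nonempty := by
          rintro D D' h ⟨x, hx1, hx2⟩
          refine ⟨x, hx1, ?_⟩
          rcases hx2 with h2 | h2
          · exact Or.inl ⟨h2.1, h2.2.1, h _ h2.2.2⟩
          · exact Or.inr ⟨h2.1, h2.2.1, h _ h2.2.2⟩
        rcases lt_trichotomy s t with h | h | h
        · exfalso
          have h1 := hcon s v (mono _ _ (by rintro r rfl; exact le_refl _) hs)
          have h2 := mono (fun r => r = t) (fun r => s < r) (by rintro r rfl; exact h) ht'
          rw [h1] at h2
          exact Set.not_nonempty_empty h2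
        · exact h
        · exfalso
          have h1 := hcon t v (mono _ _ (by rintro r rfl; exact le_refl _) ht')
          have h2 := mono (fun r => r = s) (fun r => t < r) (by rintro r rfl; exact h) hs
          rw [h1] at h2
          exact Set.not_nonempty_empty h2
      -- a common difference
      obtain ⟨s, hs⟩ : ∃ s : ℤ, ∀ t w, (xN G T ℓ (fun r => r = t) w).Nonempty → t = s := by
        by_cases hex : ∃ s v, (xN G T ℓ (fun t => t = s) v).Nonempty
        · obtain ⟨s, v, hv⟩ := hex
          exact ⟨s, fun t w ht => (hone s v hv t w ht).symm⟩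
        · push Not at hex
          refine ⟨0, fun t w ht => ?_⟩
          rw [hex t w] at ht
          exact absurd ht Set.not_nonempty_empty
      have hconst := const_of_connected hconn (fun v => if T v then ℓ v else ℓ v - s) (by
        intro a b hab
        by_cases ha : T a <;> by_cases hb : T b
        · simp only [ha, hb, if_true]
          by_contra hne
          exact hUno a b ⟨hab, by simp [ha, hb], hne⟩
        · simp only [ha, hb, if_true, if_false]
          have h1 := hs (ℓ b - ℓ a) a ⟨b, hab, Or.inl ⟨ha, hb, rfl⟩⟩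
          omega
        · simp only [ha, hb, if_true, if_false]
          have h1 := hs (ℓ a - ℓ b) b ⟨a, hab.symm, Or.inl ⟨hb, ha, rfl⟩⟩
          omega
        · simp only [ha, hb, if_false]
          by_contra hne
          exact hUno a b ⟨hab, by simp [ha, hb], by omega⟩)
      have hfin : (Set.univ : Set V).Finite := by
        refine ((hL.fin (if T v0 then ℓ v0 else ℓ v0 - s)).union
          (hL.fin ((if T v0 then ℓ v0 else ℓ v0 - s) + s))).subset ?_
        intro v _
        have h1 := hconst v v0
        by_cases hv : T v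
        · left
          simp only [hv, if_true] at h1
          exact h1
        · right
          simp only [hv, if_false] at h1
          show ℓ v = _
          omega
      exact Set.infinite_univ hfin
    -- the two matchings
    set P : ℤ → Prop := fun s => s1 < s with hP
    set Q : ℤ → Prop := fun s => ¬ s1 < s with hQ
    have hp0 : 0 < (xN G T ℓ P v0).ncard := by
      rw [x_const hL P v0 v1]
      exact (Set.ncard_pos (nfin G v1 _)).2 hhigh
    have hq0 : 0 < (xN G T ℓ Q v0).ncard := by
      rw [x_const hL Q v0 v1]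
      exact (Set.ncard_pos (nfin G v1 _)).2 hlow
    obtain ⟨p, hp⟩ : ∃ p, (xN G T ℓ P v0).ncard = p + 1 := ⟨_, (Nat.succ_pred_eq_of_pos hp0).symm⟩
    obtain ⟨q, hq⟩ : ∃ q, (xN G T ℓ Q v0).ncard = q + 1 := ⟨_, (Nat.succ_pred_eq_of_pos hq0).symm⟩
    have hRp := x_reg hL P v0
    have hRq := x_reg hL Q v0
    rw [hp] at hRp
    rw [hq] at hRq
    obtain ⟨e1, he1⟩ := reg_matching (by omega) hRp
    obtain ⟨e2, he2⟩ := reg_matching (by omega) hRq
    have hE1 := ec_bip T p (XG G T ℓ P \ MatchG T e1) (fun a b h => xg_bip P a b h.1)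
      (reg_sdiff_match hRp e1 he1)
    have hE2 := ec_bip T q (XG G T ℓ Q \ MatchG T e2) (fun a b h => xg_bip Q a b h.1)
      (reg_sdiff_match hRq e2 he2)
    set pos : V → ℤ := fun v => if T v then 2 * ℓ v else 2 * ℓ v - (2 * s1 + 1) with hpos
    have hposT : ∀ v, T v → pos v = 2 * ℓ v := fun v h => if_pos h
    have hposN : ∀ v, ¬ T v → pos v = 2 * ℓ v - (2 * s1 + 1) := fun v h => if_neg h
    -- the matching edges and the positions
    have hm1 : ∀ a b, (MatchG T e1).Adj a b → T a → pos a < pos b := by
      intro a b hab ha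
      rw [matchG_adj_T ha] at hab
      have h1 := (he1 ⟨a, ha⟩).2
      have hb : ¬ T b := by rw [hab]; exact (e1 ⟨a, ha⟩).2
      rw [← hab] at h1
      rcases h1 with h1 | h1
      · have h2 : s1 < ℓ b - ℓ a := h1.2.2
        rw [hposT a ha, hposN b hb]
        omega
      · exact absurd h1.1 hb
    have hm2 : ∀ a b, (MatchG T e2).Adj a b → T a → pos b < pos a := by
      intro a b hab ha
      rw [matchG_adj_T ha] at hab
      have h1 := (he2 ⟨a, ha⟩).2
      have hb : ¬ T b := by rw [hab]; exact (e2 ⟨a, ha⟩).2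
      rw [← hab] at h1
      rcases h1 with h1 | h1
      · have h2 : ¬ (s1 < ℓ b - ℓ a) := h1.2.2
        rw [hposT a ha, hposN b hb]
        omega
      · exact absurd h1.1 hb
    have hmb : ∀ (e : {v // T v} ≃ {v // ¬ T v}) a b, (MatchG T e).Adj a b → ¬ T a → T b := by
      intro e a b hab ha
      rw [matchG_adj_nT ha] at hab
      rw [hab]; exact (e.symm ⟨a, ha⟩).2
    have hm1' : ∀ a b, (MatchG T e1).Adj a b → ¬ T a → pos b < pos a := fun a b hab ha =>
      hm1 b a hab.symm (hmb e1 a b hab ha)
    have hm2' : ∀ a b, (MatchG T e2).Adj a b → ¬ T a → pos a < pos b := fun a b hab ha =>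
      hm2 b a hab.symm (hmb e2 a b hab ha)
    have hHpos : ∀ a b, (HG G T ℓ).Adj a b → pos a = pos b := by
      intro a b hab
      by_cases ha : T a
      · rw [hposT a ha, hposT b (hab.2.1.1 ha), hab.2.2]
      · rw [hposN a ha, hposN b (fun h => ha (hab.2.1.2 h)), hab.2.2]
    have hchain : ChainLike (HG G T ℓ ⊔ MatchG T e1 ⊔ MatchG T e2) pos (rel G T ℓ v0 0).ncard := by
      have hcases : ∀ a b, (HG G T ℓ ⊔ MatchG T e1 ⊔ MatchG T e2).Adj a b →
          (HG G T ℓ).Adj a b ∨ (MatchG T e1).Adj a b ∨ (MatchG T e2).Adj a b := by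
        rintro a b ((h | h) | h)
        · exact Or.inl h
        · exact Or.inr (Or.inl h)
        · exact Or.inr (Or.inr h)
      constructor
      · intro v a b ha hb hla hlb
        by_cases hv : T v
        · have key : ∀ c, (HG G T ℓ ⊔ MatchG T e1 ⊔ MatchG T e2).Adj v c → pos c < pos v →
              (MatchG T e2).Adj v c := by
            intro c hc hlt
            rcases hcases v c hc with h | h | h
            · exact absurd (hHpos v c h) (ne_of_gt hlt)
            · exact absurd (hm1 v c h hv) (not_lt.2 hlt.le)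
            · exact h
          exact matchG_unique (key a ha hla) (key b hb hlb)
        · have key : ∀ c, (HG G T ℓ ⊔ MatchG T e1 ⊔ MatchG T e2).Adj v c → pos c < pos v →
              (MatchG T e1).Adj v c := by
            intro c hc hlt
            rcases hcases v c hc with h | h | h
            · exact absurd (hHpos v c h) (ne_of_gt hlt)
            · exact h
            · exact absurd (hm2' v c h hv) (not_lt.2 hlt.le)
          exact matchG_unique (key a ha hla) (key b hb hlb)
      · intro v a b ha hb hla hlb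
        by_cases hv : T v
        · have key : ∀ c, (HG G T ℓ ⊔ MatchG T e1 ⊔ MatchG T e2).Adj v c → pos v < pos c →
              (MatchG T e1).Adj v c := by
            intro c hc hlt
            rcases hcases v c hc with h | h | h
            · exact absurd (hHpos v c h) (ne_of_lt hlt)
            · exact h
            · exact absurd (hm2 v c h hv) (not_lt.2 hlt.le)
          exact matchG_unique (key a ha hla) (key b hb hlb)
        · have key : ∀ c, (HG G T ℓ ⊔ MatchG T e1 ⊔ MatchG T e2).Adj v c → pos v < pos c →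
              (MatchG T e2).Adj v c := by
            intro c hc hlt
            rcases hcases v c hc with h | h | h
            · exact absurd (hHpos v c h) (ne_of_lt hlt)
            · exact absurd (hm1' v c h hv) (not_lt.2 hlt.le)
            · exact h
          exact matchG_unique (key a ha hla) (key b hb hlb)
      · intro v
        have hsub : {w | (HG G T ℓ ⊔ MatchG T e1 ⊔ MatchG T e2).Adj v w ∧ pos w = pos v} ⊆
            {w | (HG G T ℓ).Adj v w} := by
          rintro w ⟨hw, hpw⟩
          rcases hcases v w hw with h | h | h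
          · exact h
          · exfalso
            by_cases hv : T v
            · exact absurd hpw (ne_of_gt (hm1 v w h hv))
            · exact absurd hpw (ne_of_lt (hm1' v w h hv))
          · exfalso
            by_cases hv : T v
            · exact absurd hpw (ne_of_lt (hm2 v w h hv))
            · exact absurd hpw (ne_of_gt (hm2' v w h hv))
        exact ⟨(hzero v).1.subset hsub, (Set.ncard_le_ncard hsub (hzero v).1).trans (hzero v).2.le⟩
    have hE0 := chain_ec hchain
    have hE3 := ec_sup hE0 (ec_sup hE1 hE2 (le_refl _)) (G := G) (by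
      intro a b hab
      by_cases hT : T a ↔ T b
      · left; left; left
        refine ⟨hab, hT, ?_⟩
        by_contra hne
        exact hUno a b ⟨hab, hT, hne⟩
      · have hx : (XG G T ℓ P).Adj a b ∨ (XG G T ℓ Q).Adj a b := by
          by_cases ha : T a
          · have hb : ¬ T b := fun hb => hT ⟨fun _ => hb, fun _ => ha⟩
            by_cases hs : s1 < ℓ b - ℓ a
            · exact Or.inl ⟨hab, Or.inl ⟨ha, hb, hs⟩⟩
            · exact Or.inr ⟨hab, Or.inl ⟨ha, hb, hs⟩⟩
          · have hb : T b := by
              by_contra hb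
              exact hT ⟨fun h => absurd h ha, fun h => absurd h hb⟩
            by_cases hs : s1 < ℓ a - ℓ b
            · exact Or.inl ⟨hab, Or.inr ⟨hb, ha, hs⟩⟩
            · exact Or.inr ⟨hab, Or.inr ⟨hb, ha, hs⟩⟩
        rcases hx with hx | hx
        · by_cases hm : (MatchG T e1).Adj a b
          · left; left; right; exact hm
          · right; left; exact ⟨hx, hm⟩
        · by_cases hm : (MatchG T e2).Adj a b
          · left; right; exact hm
          · right; right; exact ⟨hx, hm⟩)
    have hsp := x_split (G := G) (T := T) (ℓ := ℓ) v0 P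
    have hkk : (rel G T ℓ v0 0).ncard + 2 + (p + q) = k := by
      have h1 : (xN G T ℓ (fun s => ¬ P s) v0).ncard = q + 1 := hq
      omega
    rw [hkk] at hE3
    exact hE3
  · -- there are level changing edges inside the types
    obtain ⟨m, hm⟩ : ∃ m, (upN G T ℓ v0).ncard = m + 1 := ⟨_, (Nat.succ_pred_eq_of_pos hu).symm⟩
    have hRu := u_reg hL v0
    rw [hm] at hRu
    obtain ⟨e, he⟩ := reg_matching (by omega) hRu
    have hpos : ∀ v, ℓ v < ℓ (e v) := fun v => (he v).2
    have hE1 := ec_dir ℓ m (UG G T ℓ \ PermG e) (fun a b h => h.1.2.2) (reg_sdiff_perm hRu e he)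
    have hE2 := ec_bip T _ (XG G T ℓ (fun _ => True)) (fun a b h => xg_bip _ a b h)
      (x_reg hL (fun _ => True) v0)
    have hchain : ChainLike (HG G T ℓ ⊔ PermG e) ℓ (rel G T ℓ v0 0).ncard := by
      have hcases : ∀ a b, (HG G T ℓ ⊔ PermG e).Adj a b →
          (HG G T ℓ).Adj a b ∨ b = e a ∨ a = e b := by
        rintro a b (h | h)
        · exact Or.inl h
        · exact Or.inr ((permG_adj' hpos).1 h)
      constructor
      · intro v a b ha hb hla hlb
        have key : ∀ c, (HG G T ℓ ⊔ PermG e).Adj v c → ℓ c < ℓ v → v = e c := by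
          intro c hc hlt
          rcases hcases v c hc with h | h | h
          · exact absurd h.2.2 (ne_of_gt hlt)
          · have := hpos v
            rw [← h] at this
            exact absurd hlt (not_lt.2 this.le)
          · exact h
        exact e.injective ((key a ha hla).symm.trans (key b hb hlb))
      · intro v a b ha hb hla hlb
        have key : ∀ c, (HG G T ℓ ⊔ PermG e).Adj v c → ℓ v < ℓ c → c = e v := by
          intro c hc hlt
          rcases hcases v c hc with h | h | h
          · exact absurd h.2.2 (ne_of_lt hlt)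
          · exact h
          · have := hpos c
            rw [← h] at this
            exact absurd hlt (not_lt.2 this.le)
        exact (key a ha hla).trans (key b hb hlb).symm
      · intro v
        have hsub : {w | (HG G T ℓ ⊔ PermG e).Adj v w ∧ ℓ w = ℓ v} ⊆
            {w | (HG G T ℓ).Adj v w} := by
          rintro w ⟨hw, hpw⟩
          rcases hcases v w hw with h | h | h
          · exact h
          · exfalso
            have := hpos v
            rw [← h] at this
            omega
          · exfalso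
            have := hpos w
            rw [← h] at this
            omega
        exact ⟨(hzero v).1.subset hsub, (Set.ncard_le_ncard hsub (hzero v).1).trans (hzero v).2.le⟩
    have hE0 := chain_ec hchain
    have hE3 := ec_sup hE0 (ec_sup hE1 hE2 (le_refl _)) (G := G) (by
      intro a b hab
      by_cases hT : T a ↔ T b
      · by_cases hl : ℓ a = ℓ b
        · left; left; exact ⟨hab, hT, hl⟩
        · by_cases hp : (PermG e).Adj a b
          · left; right; exact hp
          · right; left; exact ⟨⟨hab, hT, hl⟩, hp⟩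
      · right; right
        refine ⟨hab, ?_⟩
        tauto)
    have hkk : (rel G T ℓ v0 0).ncard + 2 + (2 * m + (xN G T ℓ (fun _ => True) v0).ncard) = k := by
      omega
    rw [hkk] at hE3
    exact hE3

end Pool.Q11.TwoEnd
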