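import Mathlib
import Pool.Agent.Q11.TwoEnd.Main

/-!
# Two-ended graphs: commensurability of the halves
-/

namespace Pool.Q11.TwoEnd

open SimpleGraph

universe u

variable {V : Type u}

/-- A graph is two-ended when the largest number of infinite components that remain after the
removal of a finite set of vertices is two. -/
def TwoEnded (G : SimpleGraph V) : Prop :=
  (∀ S : Finset V, {C : G.ComponentCompl (S : Set V) | C.supp.Infinite}.encard ≤ 2) ∧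
    ∃ S : Finset V, {C : G.ComponentCompl (S : Set V) | C.supp.Infinite}.encard = 2

/-- an infinite set which is closed outside `S` contains an infinite component -/
theorem inf_comp {G : SimpleGraph V} [G.LocallyFinite] (hconn : G.Connected) (S : Finset V)
    (Y : Set V) (hY : Y.Infinite)
    (hcl : ∀ a ∈ Y, ∀ b, a ∉ S → b ∉ S → G.Adj a b → b ∈ Y) :
    ∃ D : G.ComponentCompl (S : Set V), D.supp.Infinite ∧ D.supp ⊆ Y := by
  classical
  have : Fact G.Preconnected := ⟨hconn.preconnected⟩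
  have hYS : (Y \ (S : Set V)).Infinite := hY.sdiff S.finite_toSet
  -- map to components
  have hex : ∃ D : G.ComponentCompl (S : Set V), (D.supp ∩ Y).Infinite := by
    by_contra hcon
    push Not at hcon
    have h1 : (Y \ (S : Set V)) ⊆ ⋃ D : G.ComponentCompl (S : Set V), (D.supp ∩ Y) := by
      rintro y ⟨hy, hyS⟩
      rw [Set.mem_iUnion]
      exact ⟨G.componentComplMk hyS, G.componentComplMk_mem hyS, hy⟩
    have h2 : (⋃ D : G.ComponentCompl (S : Set V), (D.supp ∩ Y)).Finite :=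
      Set.finite_iUnion fun D => hcon D
    exact hYS (h2.subset h1)
  obtain ⟨D, hD⟩ := hex
  refine ⟨D, hD.mono Set.inter_subset_left, ?_⟩
  obtain ⟨y, hyD, hyY⟩ := hD.nonempty
  intro x hx
  obtain ⟨hyS, hyD'⟩ := hyD
  obtain ⟨hxS, hxD⟩ := hx
  have hreach : (G.induce ((S : Set V)ᶜ)).Reachable ⟨y, hyS⟩ ⟨x, hxS⟩ :=
    ConnectedComponent.exact (hyD'.trans hxD.symm)
  obtain ⟨p⟩ := hreach
  have key : ∀ (a b : ((S : Set V)ᶜ : Set V)) (_ : (G.induce ((S : Set V)ᶜ)).Walk a b),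
      (a : V) ∈ Y → (b : V) ∈ Y := by
    intro a b p
    induction p with
    | nil => exact fun h => h
    | @cons a c b h _ ih =>
      intro ha
      exact ih (hcl a ha c (fun h' => a.2 h') (fun h' => c.2 h') h)
  exact key _ _ p hyY

/-- at most two disjoint infinite closed sets -/
theorem no_three {G : SimpleGraph V} [G.LocallyFinite] (hconn : G.Connected) (h2 : TwoEnded G)
    (S : Finset V) (Y1 Y2 Y3 : Set V) (h1i : Y1.Infinite) (h2i : Y2.Infinite) (h3i : Y3.Infinite)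
    (hcl1 : ∀ a ∈ Y1, ∀ b, a ∉ S → b ∉ S → G.Adj a b → b ∈ Y1)
    (hcl2 : ∀ a ∈ Y2, ∀ b, a ∉ S → b ∉ S → G.Adj a b → b ∈ Y2)
    (hcl3 : ∀ a ∈ Y3, ∀ b, a ∉ S → b ∉ S → G.Adj a b → b ∈ Y3)
    (h12 : Disjoint Y1 Y2) (h13 : Disjoint Y1 Y3) (h23 : Disjoint Y2 Y3) : False := by
  classical
  obtain ⟨D1, hD1, hs1⟩ := inf_comp hconn S Y1 h1i hcl1
  obtain ⟨D2, hD2, hs2⟩ := inf_comp hconn S Y2 h2i hcl2
  obtain ⟨D3, hD3, hs3⟩ := inf_comp hconn S Y3 h3i hcl3
  have ne : ∀ (D D' : G.ComponentCompl (S : Set V)) (Y Y' : Set V), D.supp.Infinite →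
      D.supp ⊆ Y → D'.supp ⊆ Y' → Disjoint Y Y' → D ≠ D' := by
    intro D D' Y Y' hi hs hs' hd heq
    subst heq
    obtain ⟨x, hx⟩ := hi.nonempty
    exact Set.disjoint_left.1 hd (hs hx) (hs' hx)
  have n12 := ne D1 D2 Y1 Y2 hD1 hs1 hs2 h12
  have n13 := ne D1 D3 Y1 Y3 hD1 hs1 hs3 h13
  have n23 := ne D2 D3 Y2 Y3 hD2 hs2 hs3 h23
  have hsub : ({D1, D2, D3} : Set (G.ComponentCompl (S : Set V))) ⊆
      {C : G.ComponentCompl (S : Set V) | C.supp.Infinite} := by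
    rintro D (rfl | rfl | rfl)
    · exact hD1
    · exact hD2
    · exact hD3
  have h3 := (Set.encard_le_encard hsub).trans (h2.1 S)
  have h4 : ({D1, D2, D3} : Set (G.ComponentCompl (S : Set V))).encard = 3 := by
    rw [Set.encard_eq_three]
    exact ⟨D1, D2, D3, n12, n13, n23, rfl⟩
  rw [h4] at h3
  exact absurd h3 (by decide)

/-- finite edge boundary, with all the ends of boundary edges in a finite set `S` -/
def Bd (G : SimpleGraph V) (X : Set V) (S : Finset V) : Prop :=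
  ∀ a ∈ X, ∀ b, b ∉ X → G.Adj a b → a ∈ S ∧ b ∈ S

theorem Bd.compl {G : SimpleGraph V} {X : Set V} {S : Finset V} (h : Bd G X S) : Bd G Xᶜ S := by
  intro a ha b hb hab
  have hb' : b ∈ X := by
    by_contra h'
    exact hb h'
  have := h b hb' a ha hab.symm
  exact ⟨this.2, this.1⟩

/-- commensurable sets -/
def Cm (X Y : Set V) : Prop := (X \ Y).Finite ∧ (Y \ X).Finite

theorem Cm.refl (X : Set V) : Cm X X := by
  unfold Cm
  simp

theorem Cm.symm {X Y : Set V} (h : Cm X Y) : Cm Y X := ⟨h.2, h.1⟩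

theorem Cm.trans {X Y Z : Set V} (h : Cm X Y) (h' : Cm Y Z) : Cm X Z := by
  constructor
  · refine (h.1.union h'.1).subset ?_
    rintro x ⟨hx, hz⟩
    by_cases hy : x ∈ Y
    · exact Or.inr ⟨hy, hz⟩
    · exact Or.inl ⟨hx, hy⟩
  · refine (h.2.union h'.2).subset ?_
    rintro x ⟨hz, hx⟩
    by_cases hy : x ∈ Y
    · exact Or.inl ⟨hy, hx⟩
    · exact Or.inr ⟨hz, hy⟩

theorem Cm.compl {X Y : Set V} (h : Cm X Y) : Cm Xᶜ Yᶜ := by
  constructor
  · refine h.2.subset ?_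
    rintro x ⟨hx, hy⟩
    exact ⟨by by_contra h'; exact hy h', hx⟩
  · refine h.1.subset ?_
    rintro x ⟨hx, hy⟩
    exact ⟨by by_contra h'; exact hy h', hx⟩

theorem Cm.image {X Y : Set V} (h : Cm X Y) (g : V ≃ V) : Cm (g '' X) (g '' Y) := by
  constructor
  · rw [← Set.image_sdiff g.injective]; exact h.1.image g
  · rw [← Set.image_sdiff g.injective]; exact h.2.image g

/-- halves of a two ended graph -/
structure Half (G : SimpleGraph V) (A : Set V) (S : Finset V) : Prop where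
  inf : A.Infinite
  coinf : Aᶜ.Infinite
  bd : Bd G A S
  cm : ∀ (X : Set V) (S' : Finset V), X.Infinite → Xᶜ.Infinite → Bd G X S' → Cm X A ∨ Cm X Aᶜ

theorem quad {a b c d : Prop} (sA : a ∨ b) (sAc : c ∨ d) (sX : a ∨ c) (sXc : b ∨ d)
    (t1 : ¬ (a ∧ b ∧ c)) (t2 : ¬ (a ∧ b ∧ d)) (t3 : ¬ (a ∧ c ∧ d)) (t4 : ¬ (b ∧ c ∧ d)) :
    (¬ b ∧ ¬ c) ∨ (¬ a ∧ ¬ d) := by
  by_cases ha : a
  · by_cases hb : b
    · exfalso
      rcases sAc with hc | hd
      · exact t1 ⟨ha, hb, hc⟩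
      · exact t2 ⟨ha, hb, hd⟩
    · have hd : d := sXc.resolve_left hb
      exact Or.inl ⟨hb, fun hc => t3 ⟨ha, hc, hd⟩⟩
  · have hb : b := sA.resolve_left ha
    have hc : c := sX.resolve_left ha
    exact Or.inr ⟨ha, fun hd => t4 ⟨hb, hc, hd⟩⟩

theorem exists_half {G : SimpleGraph V} [G.LocallyFinite] (hconn : G.Connected)
    (h2 : TwoEnded G) : ∃ (A : Set V) (S : Finset V), Half G A S := by
  classical
  obtain ⟨S0, hS0⟩ := h2.2
  rw [Set.encard_eq_two] at hS0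
  obtain ⟨C1, C2, hne, hC⟩ := hS0
  have hC1 : C1.supp.Infinite := by
    have : C1 ∈ {C : G.ComponentCompl (S0 : Set V) | C.supp.Infinite} := by rw [hC]; simp
    exact this
  have hC2 : C2.supp.Infinite := by
    have : C2 ∈ {C : G.ComponentCompl (S0 : Set V) | C.supp.Infinite} := by rw [hC]; simp
    exact this
  have hdisj : Disjoint C1.supp C2.supp := by
    have := ComponentCompl.pairwise_disjoint (G := G) (K := (S0 : Set V)) hne
    exact this
  have hcl : ∀ a ∈ C1.supp, ∀ b, b ∉ C1.supp → G.Adj a b → b ∈ S0 := by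
    intro a ha b hb hab
    by_contra hbS
    exact hb (ComponentCompl.mem_of_adj a b ha hbS hab)
  refine ⟨C1.supp, S0 ∪ S0.biUnion (fun v => G.neighborFinset v), ⟨hC1, ?_, ?_, ?_⟩⟩
  · refine hC2.mono ?_
    intro x hx hx1
    exact Set.disjoint_left.1 hdisj hx1 hx
  · intro a ha b hb hab
    have h1 := hcl a ha b hb hab
    refine ⟨Finset.mem_union_right _ ?_, Finset.mem_union_left _ h1⟩
    rw [Finset.mem_biUnion]
    exact ⟨b, h1, (G.mem_neighborFinset b a).2 hab.symm⟩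
  · intro X S' hX hXc hbd
    set A := C1.supp with hA
    have hAc : Aᶜ.Infinite := by
      refine hC2.mono ?_
      intro x hx hx1
      exact Set.disjoint_left.1 hdisj hx1 hx
    -- closure of the quadrants outside `S0 ∪ S'`
    set S := S0 ∪ S' with hS
    have c1 : ∀ a b, a ∉ S → b ∉ S → G.Adj a b → a ∈ A → b ∈ A := by
      intro a b _ hb hab ha
      by_contra hb'
      exact hb (Finset.mem_union_left _ (hcl a ha b hb' hab))
    have c2 : ∀ a b, a ∉ S → b ∉ S → G.Adj a b → a ∉ A → b ∉ A := by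
      intro a b ha hb hab haA hbA
      exact haA (c1 b a hb ha hab.symm hbA)
    have c3 : ∀ a b, a ∉ S → b ∉ S → G.Adj a b → a ∈ X → b ∈ X := by
      intro a b _ hb hab ha
      by_contra hb'
      exact hb (Finset.mem_union_right _ (hbd a ha b hb' hab).2)
    have c4 : ∀ a b, a ∉ S → b ∉ S → G.Adj a b → a ∉ X → b ∉ X := by
      intro a b ha hb hab haA hbA
      exact haA (c3 b a hb ha hab.symm hbA)
    have q11 : ∀ a ∈ A ∩ X, ∀ b, a ∉ S → b ∉ S → G.Adj a b → b ∈ A ∩ X :=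
      fun a ha b h1 h2 h => ⟨c1 a b h1 h2 h ha.1, c3 a b h1 h2 h ha.2⟩
    have q12 : ∀ a ∈ A ∩ Xᶜ, ∀ b, a ∉ S → b ∉ S → G.Adj a b → b ∈ A ∩ Xᶜ :=
      fun a ha b h1 h2 h => ⟨c1 a b h1 h2 h ha.1, c4 a b h1 h2 h ha.2⟩
    have q21 : ∀ a ∈ Aᶜ ∩ X, ∀ b, a ∉ S → b ∉ S → G.Adj a b → b ∈ Aᶜ ∩ X :=
      fun a ha b h1 h2 h => ⟨c2 a b h1 h2 h ha.1, c3 a b h1 h2 h ha.2⟩
    have q22 : ∀ a ∈ Aᶜ ∩ Xᶜ, ∀ b, a ∉ S → b ∉ S → G.Adj a b → b ∈ Aᶜ ∩ Xᶜ :=
      fun a ha b h1 h2 h => ⟨c2 a b h1 h2 h ha.1, c4 a b h1 h2 h ha.2⟩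
    have dA : ∀ (P Q : Set V), Disjoint (A ∩ P) (Aᶜ ∩ Q) := by
      intro P Q
      rw [Set.disjoint_left]
      rintro x ⟨hx, _⟩ ⟨hx', _⟩
      exact hx' hx
    have dX : ∀ (P Q : Set V), Disjoint (P ∩ X) (Q ∩ Xᶜ) := by
      intro P Q
      rw [Set.disjoint_left]
      rintro x ⟨_, hx⟩ ⟨_, hx'⟩
      exact hx' hx
    have sA : (A ∩ X).Infinite ∨ (A ∩ Xᶜ).Infinite := by
      rw [← Set.infinite_union, Set.inter_union_compl]; exact hC1
    have sAc : (Aᶜ ∩ X).Infinite ∨ (Aᶜ ∩ Xᶜ).Infinite := by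
      rw [← Set.infinite_union, Set.inter_union_compl]; exact hAc
    have sX : (A ∩ X).Infinite ∨ (Aᶜ ∩ X).Infinite := by
      rw [← Set.infinite_union, ← Set.union_inter_distrib_right, Set.union_compl_self,
        Set.univ_inter]; exact hX
    have sXc : (A ∩ Xᶜ).Infinite ∨ (Aᶜ ∩ Xᶜ).Infinite := by
      rw [← Set.infinite_union, ← Set.union_inter_distrib_right, Set.union_compl_self,
        Set.univ_inter]; exact hXc
    have t1 : ¬ ((A ∩ X).Infinite ∧ (A ∩ Xᶜ).Infinite ∧ (Aᶜ ∩ X).Infinite) := fun h =>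
      no_three hconn h2 S _ _ _ h.1 h.2.1 h.2.2 q11 q12 q21 (dX _ _) (dA _ _) (dA _ _)
    have t2 : ¬ ((A ∩ X).Infinite ∧ (A ∩ Xᶜ).Infinite ∧ (Aᶜ ∩ Xᶜ).Infinite) := fun h =>
      no_three hconn h2 S _ _ _ h.1 h.2.1 h.2.2 q11 q12 q22 (dX _ _) (dA _ _) (dA _ _)
    have t3 : ¬ ((A ∩ X).Infinite ∧ (Aᶜ ∩ X).Infinite ∧ (Aᶜ ∩ Xᶜ).Infinite) := fun h =>
      no_three hconn h2 S _ _ _ h.1 h.2.1 h.2.2 q11 q21 q22 (dA _ _) (dA _ _) (dX _ _)
    have t4 : ¬ ((A ∩ Xᶜ).Infinite ∧ (Aᶜ ∩ X).Infinite ∧ (Aᶜ ∩ Xᶜ).Infinite) := fun h =>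
      no_three hconn h2 S _ _ _ h.1 h.2.1 h.2.2 q12 q21 q22 (dA _ _) (dA _ _) (dX _ _)
    have main : ((A ∩ Xᶜ).Finite ∧ (Aᶜ ∩ X).Finite) ∨ ((A ∩ X).Finite ∧ (Aᶜ ∩ Xᶜ).Finite) := by
      simp only [← Set.not_infinite]
      exact quad sA sAc sX sXc t1 t2 t3 t4
    rcases main with ⟨m1, m2⟩ | ⟨m1, m2⟩
    · left
      refine ⟨m2.subset ?_, m1.subset ?_⟩
      · rintro x ⟨hx, hx'⟩; exact ⟨hx', hx⟩
      · rintro x ⟨hx, hx'⟩; exact ⟨hx, hx'⟩
    · right
      refine ⟨m1.subset ?_, m2.subset ?_⟩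
      · rintro x ⟨hx, hx'⟩
        exact ⟨by by_contra h; exact hx' h, hx⟩
      · rintro x ⟨hx, hx'⟩; exact ⟨hx, hx'⟩

/-- relative size of commensurable sets -/
noncomputable def dl (X Y : Set V) : ℤ := ((X \ Y).ncard : ℤ) - ((Y \ X).ncard : ℤ)

theorem dl_self (X : Set V) : dl X X = 0 := by
  unfold dl; simp

theorem dl_compl (X Y : Set V) : dl Xᶜ Yᶜ = - dl X Y := by
  unfold dl
  have h1 : Xᶜ \ Yᶜ = Y \ X := by ext x; simp [and_comm]
  have h2 : Yᶜ \ Xᶜ = X \ Y := by ext x; simp [and_comm]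
  rw [h1, h2]; ring

theorem dl_image (X Y : Set V) (g : V ≃ V) : dl (g '' X) (g '' Y) = dl X Y := by
  unfold dl
  rw [← Set.image_sdiff g.injective, ← Set.image_sdiff g.injective,
    Set.ncard_image_of_injective _ g.injective, Set.ncard_image_of_injective _ g.injective]

theorem dl_add {X Y Z : Set V} (h : Cm X Y) (h' : Cm Y Z) : dl X Z = dl X Y + dl Y Z := by
  classical
  -- a finite set containing all the differences
  set F : Set V := ((X \ Y) ∪ (Y \ X)) ∪ ((Y \ Z) ∪ (Z \ Y)) with hF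
  have hFfin : F.Finite := (h.1.union h.2).union (h'.1.union h'.2)
  have key : ∀ P Q : Set V, (P \ Q) ⊆ F → (Q \ P) ⊆ F →
      dl P Q = ((P ∩ F).ncard : ℤ) - ((Q ∩ F).ncard : ℤ) := by
    intro P Q h1 h2
    have fP : (P ∩ F).Finite := hFfin.subset Set.inter_subset_right
    have fQ : (Q ∩ F).Finite := hFfin.subset Set.inter_subset_right
    have e1 : (P ∩ F).ncard = (P \ Q).ncard + (P ∩ Q ∩ F).ncard := by
      rw [← Set.ncard_union_eq ?_ (hFfin.subset h1) (hFfin.subset Set.inter_subset_right)]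
      · congr 1
        ext x
        constructor
        · rintro ⟨hx, hxF⟩
          by_cases hq : x ∈ Q
          · exact Or.inr ⟨⟨hx, hq⟩, hxF⟩
          · exact Or.inl ⟨hx, hq⟩
        · rintro (hx | hx)
          · exact ⟨hx.1, h1 hx⟩
          · exact ⟨hx.1.1, hx.2⟩
      · rw [Set.disjoint_left]
        rintro x ⟨_, hx⟩ ⟨⟨_, hx'⟩, _⟩
        exact hx hx'
    have e2 : (Q ∩ F).ncard = (Q \ P).ncard + (P ∩ Q ∩ F).ncard := by
      rw [← Set.ncard_union_eq ?_ (hFfin.subset h2) (hFfin.subset Set.inter_subset_right)]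
      · congr 1
        ext x
        constructor
        · rintro ⟨hx, hxF⟩
          by_cases hq : x ∈ P
          · exact Or.inr ⟨⟨hq, hx⟩, hxF⟩
          · exact Or.inl ⟨hx, hq⟩
        · rintro (hx | hx)
          · exact ⟨hx.1, h2 hx⟩
          · exact ⟨hx.1.2, hx.2⟩
      · rw [Set.disjoint_left]
        rintro x ⟨_, hx⟩ ⟨⟨hx', _⟩, _⟩
        exact hx hx'
    unfold dl
    rw [e1, e2]
    push_cast
    ring
  have s1 : (X \ Y) ⊆ F := fun x hx => Or.inl (Or.inl hx)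
  have s2 : (Y \ X) ⊆ F := fun x hx => Or.inl (Or.inr hx)
  have s3 : (Y \ Z) ⊆ F := fun x hx => Or.inr (Or.inl hx)
  have s4 : (Z \ Y) ⊆ F := fun x hx => Or.inr (Or.inr hx)
  have s5 : (X \ Z) ⊆ F := by
    rintro x ⟨hx, hz⟩
    by_cases hy : x ∈ Y
    · exact s3 ⟨hy, hz⟩
    · exact s1 ⟨hx, hy⟩
  have s6 : (Z \ X) ⊆ F := by
    rintro x ⟨hz, hx⟩
    by_cases hy : x ∈ Y
    · exact s2 ⟨hy, hx⟩
    · exact s4 ⟨hz, hy⟩
  rw [key X Z s5 s6, key X Y s1 s2, key Y Z s3 s4]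
  ring

end Pool.Q11.TwoEnd
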