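import Mathlib
import Pool.Agent.Q11.TwoEnd.Ends

/-!
# The displacement cocycle of a two-ended graph
-/

namespace Pool.Q11.TwoEnd

open SimpleGraph

universe u

variable {V : Type u} {G : SimpleGraph V}

/-- image of a set under an automorphism -/
def Im (g : G ≃g G) (X : Set V) : Set V := g.toEquiv '' X

theorem mem_Im {g : G ≃g G} {X : Set V} {x : V} : g x ∈ Im g X ↔ x ∈ X :=
  g.toEquiv.injective.mem_set_image

theorem Im_mul (g h : G ≃g G) (X : Set V) : Im (g * h) X = Im g (Im h X) := by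
  unfold Im
  rw [Set.image_image]
  rfl

theorem Im_compl (g : G ≃g G) (X : Set V) : Im g Xᶜ = (Im g X)ᶜ :=
  Set.image_compl_eq g.toEquiv.bijective

theorem Im_one (X : Set V) : Im (1 : G ≃g G) X = X := by
  unfold Im
  ext x
  constructor
  · rintro ⟨y, hy, rfl⟩; exact hy
  · intro hx; exact ⟨x, hx, rfl⟩

theorem Cm_Im {X Y : Set V} (h : Cm X Y) (g : G ≃g G) : Cm (Im g X) (Im g Y) := h.image g.toEquiv

theorem dl_Im (X Y : Set V) (g : G ≃g G) : dl (Im g X) (Im g Y) = dl X Y := dl_image X Y g.toEquiv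

theorem Bd_Im [DecidableEq V] {X : Set V} {S : Finset V} (h : Bd G X S) (g : G ≃g G) :
    Bd G (Im g X) (S.image g) := by
  rintro a ⟨x, hx, rfl⟩ b hb hab
  obtain ⟨y, rfl⟩ := g.toEquiv.surjective b
  have hy : y ∉ X := fun h' => hb ⟨y, h', rfl⟩
  have hxy : G.Adj x y := g.map_adj_iff.1 hab
  have := h x hx y hy hxy
  exact ⟨Finset.mem_image.2 ⟨x, this.1, rfl⟩, Finset.mem_image.2 ⟨y, this.2, rfl⟩⟩

variable {A : Set V} {S : Finset V}

/-- `g` preserves the ends -/
def Pos (A : Set V) (g : G ≃g G) : Prop := Cm (Im g A) A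

theorem alt (hH : Half G A S) (g : G ≃g G) : Cm (Im g A) A ∨ Cm (Im g A) Aᶜ := by
  classical
  refine hH.cm (Im g A) (S.image g) (hH.inf.image g.toEquiv.injective.injOn) ?_ (Bd_Im hH.bd g)
  rw [← Im_compl]
  exact hH.coinf.image g.toEquiv.injective.injOn

theorem not_cm_compl (hH : Half G A S) : ¬ Cm A Aᶜ := by
  intro h
  have h1 := h.1
  have h2 : A \ Aᶜ = A := by ext x; simp
  rw [h2] at h1
  exact hH.inf h1

theorem cm_of_not_pos (hH : Half G A S) {g : G ≃g G} (h : ¬ Pos A g) : Cm (Im g Aᶜ) A := by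
  rcases alt hH g with h1 | h1
  · exact absurd h1 h
  · have := h1.compl
    rw [compl_compl, ← Im_compl] at this
    exact this

theorem pos_mul_pos {g h : G ≃g G} (hg : Pos A g) (hh : Pos A h) :
    Pos A (g * h) := by
  unfold Pos
  rw [Im_mul]
  exact (Cm_Im hh g).trans hg

theorem pos_mul_neg (hH : Half G A S) {g h : G ≃g G} (hg : Pos A g) (hh : ¬ Pos A h) :
    ¬ Pos A (g * h) := by
  intro hc
  unfold Pos at hc
  rw [Im_mul] at hc
  -- `Im h A ~ Aᶜ`
  have h1 := (cm_of_not_pos hH hh).compl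
  rw [← Im_compl, compl_compl] at h1
  have h2 := Cm_Im h1 g
  rw [Im_compl] at h2
  -- `A ~ Im g (Im h A) ~ (Im g A)ᶜ ~ Aᶜ`
  exact not_cm_compl hH (hc.symm.trans (h2.trans (Cm.compl hg)))

theorem neg_mul_pos {g h : G ≃g G} (hg : ¬ Pos A g) (hh : Pos A h) :
    ¬ Pos A (g * h) := by
  intro hc
  unfold Pos at hc
  rw [Im_mul] at hc
  have h1 := Cm_Im hh g
  -- `Im g A ~ A`
  exact hg (h1.symm.trans hc)

theorem neg_mul_neg (hH : Half G A S) {g h : G ≃g G} (hg : ¬ Pos A g) (hh : ¬ Pos A h) :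
    Pos A (g * h) := by
  unfold Pos
  rw [Im_mul]
  have h1 := (cm_of_not_pos hH hh).compl
  rw [← Im_compl, compl_compl] at h1
  exact (Cm_Im h1 g).trans (cm_of_not_pos hH hg)

theorem pos_mul_iff (hH : Half G A S) (g h : G ≃g G) :
    Pos A (g * h) ↔ (Pos A g ↔ Pos A h) := by
  by_cases hg : Pos A g <;> by_cases hh : Pos A h
  · simp [hg, hh, pos_mul_pos hg hh]
  · simp [hg, hh, pos_mul_neg hH hg hh]
  · simp [hg, hh, neg_mul_pos hg hh]
  · simp [hg, hh, neg_mul_neg hH hg hh]

theorem pos_one : Pos A (1 : G ≃g G) := by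
  unfold Pos
  rw [Im_one]
  exact Cm.refl A

theorem pos_inv (hH : Half G A S) (g : G ≃g G) : Pos A g⁻¹ ↔ Pos A g := by
  have h1 := pos_mul_iff hH g⁻¹ g
  rw [inv_mul_cancel] at h1
  exact h1.1 pos_one

open Classical in
/-- the displacement -/
noncomputable def tau (A : Set V) (g : G ≃g G) : ℤ :=
  if Pos A g then dl (Im g A) A else dl (Im g Aᶜ) A

theorem tau_mul_pos (hH : Half G A S) {g h : G ≃g G} (hg : Pos A g) :
    tau A (g * h) = tau A g + tau A h := by
  unfold tau
  by_cases hh : Pos A h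
  · rw [if_pos (pos_mul_pos hg hh), if_pos hg, if_pos hh, Im_mul,
      dl_add (Cm_Im hh g) hg, dl_Im]
    ring
  · rw [if_neg (pos_mul_neg hH hg hh), if_pos hg, if_neg hh, Im_mul,
      dl_add (Cm_Im (cm_of_not_pos hH hh) g) hg, dl_Im]
    ring

theorem tau_mul_neg (hH : Half G A S) {g h : G ≃g G} (hg : ¬ Pos A g) :
    tau A (g * h) = tau A g - tau A h := by
  unfold tau
  have hg' := cm_of_not_pos hH hg
  by_cases hh : Pos A h
  · rw [if_neg (neg_mul_pos hg hh), if_neg hg, if_pos hh, Im_mul]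
    have h1 : Cm (Im h Aᶜ) Aᶜ := by rw [Im_compl]; exact Cm.compl hh
    rw [dl_add (Cm_Im h1 g) hg', dl_Im, Im_compl h A, dl_compl]
    ring
  · rw [if_pos (neg_mul_neg hH hg hh), if_neg hg, if_neg hh, Im_mul]
    have h1 := (cm_of_not_pos hH hh).compl
    rw [← Im_compl, compl_compl] at h1
    rw [dl_add (Cm_Im h1 g) hg', dl_Im]
    have h2 : dl (Im h A) Aᶜ = - dl (Im h Aᶜ) A := by
      rw [← dl_compl (Im h Aᶜ) A, ← Im_compl, compl_compl]
    rw [h2]
    ring

theorem tau_one (hH : Half G A S) : tau A (1 : G ≃g G) = 0 := by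
  have := tau_mul_pos hH (g := (1 : G ≃g G)) (h := 1) pos_one
  rw [one_mul] at this
  omega

theorem tau_inv_pos (hH : Half G A S) {g : G ≃g G} (hg : Pos A g) : tau A g⁻¹ = - tau A g := by
  have := tau_mul_pos hH (h := g⁻¹) hg
  rw [mul_inv_cancel, tau_one hH] at this
  omega

theorem tau_inv_neg (hH : Half G A S) {g : G ≃g G} (hg : ¬ Pos A g) : tau A g⁻¹ = tau A g := by
  have := tau_mul_neg hH (h := g⁻¹) hg
  rw [mul_inv_cancel, tau_one hH] at this
  omega

/-- closed sets of a connected graph -/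
theorem closed_univ (hconn : G.Connected) {X : Set V} (hne : X.Nonempty)
    (hcl : ∀ a ∈ X, ∀ b, G.Adj a b → b ∈ X) : X = Set.univ := by
  obtain ⟨a, ha⟩ := hne
  ext b
  simp only [Set.mem_univ, iff_true]
  obtain ⟨p⟩ := hconn.preconnected a b
  induction p with
  | nil => exact ha
  | cons h _ ih => exact ih (hcl _ ha _ h)

/-- a connected set disjoint from the boundary is on one side -/
theorem conn_side {X : Set V} {S' S'' : Finset V} (hc : (G.induce (S' : Set V)).Connected)
    (hbd : Bd G X S'') (hd : ∀ x ∈ S', x ∉ S'') :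
    (∀ x ∈ S', x ∈ X) ∨ (∀ x ∈ S', x ∉ X) := by
  by_contra hcon
  push Not at hcon
  obtain ⟨⟨x, hx, hxX⟩, ⟨y, hy, hyX⟩⟩ := hcon
  obtain ⟨p⟩ := hc.preconnected ⟨y, hy⟩ ⟨x, hx⟩
  have key : ∀ (a b : ((S' : Set V) : Set V)) (_ : (G.induce (S' : Set V)).Walk a b),
      (a : V) ∈ X → (b : V) ∈ X := by
    intro a b p
    induction p with
    | nil => exact fun h => h
    | @cons a c b h _ ih =>
      intro ha
      apply ih
      by_contra hcX
      exact hd a a.2 (hbd a ha c hcX h).1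
  exact hxX (key _ _ p hyX)

/-- an element moving a large connected set off itself has non zero displacement -/
theorem tau_ne_zero (hconn : G.Connected) (hH : Half G A S) {S' : Finset V} (hSS : S ⊆ S')
    (hc : (G.induce (S' : Set V)).Connected) {g : G ≃g G} (hg : Pos A g)
    (hd : ∀ x ∈ S', g x ∉ S') : tau A g ≠ 0 := by
  classical
  have hbd : Bd G A S' := fun a ha b hb hab => by
    have := hH.bd a ha b hb hab
    exact ⟨hSS this.1, hSS this.2⟩
  -- side of `S'` with respect to `g A`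
  have side1 : (∀ x ∈ S', x ∈ Im g A) ∨ (∀ x ∈ S', x ∉ Im g A) := by
    refine conn_side hc (Bd_Im hbd g) ?_
    intro x hx hx'
    obtain ⟨y, hy, rfl⟩ := Finset.mem_image.1 hx'
    exact hd y hy hx
  have side2 : (∀ x ∈ S', g x ∈ A) ∨ (∀ x ∈ S', g x ∉ A) := by
    have h1 := conn_side hc (Bd_Im hbd g⁻¹) (by
      intro x hx hx'
      obtain ⟨y, hy, rfl⟩ := Finset.mem_image.1 hx'
      apply hd _ hx
      rw [RelIso.apply_inv_self]
      exact hy)
    have h2 : ∀ x, x ∈ Im g⁻¹ A ↔ g x ∈ A := by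
      intro x
      have h3 := mem_Im (g := g⁻¹) (X := A) (x := g x)
      rw [RelIso.inv_apply_self] at h3
      exact h3
    simp only [h2] at h1
    exact h1
  -- a boundary edge of `A`
  obtain ⟨a0, ha0, b0, hb0, hab0⟩ : ∃ a ∈ A, ∃ b, b ∉ A ∧ G.Adj a b := by
    by_contra hcon
    push Not at hcon
    have h1 := closed_univ hconn hH.inf.nonempty (fun a ha b hab => by
      by_contra hb
      exact hcon a ha b hb hab)
    have h2 := hH.coinf
    rw [h1, Set.compl_univ] at h2
    exact h2 Set.finite_empty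
  have hS0 := hbd a0 ha0 b0 hb0 hab0
  have hbdg := Bd_Im hbd g
  have hcoinfg : (Im g A)ᶜ.Infinite := by
    rw [← Im_compl]
    exact hH.coinf.image g.toEquiv.injective.injOn
  have hinfg : (Im g A).Infinite := hH.inf.image g.toEquiv.injective.injOn
  unfold tau
  rw [if_pos hg]
  unfold dl
  rcases side1 with s1 | s1 <;> rcases side2 with s2 | s2
  · -- `S' ⊆ g A`, `g S' ⊆ A`
    exfalso
    have hX : (Aᶜ ∩ (Im g A)ᶜ) = ∅ := by
      by_contra hne
      have h1 := closed_univ hconn (Set.nonempty_iff_ne_empty.2 hne) (by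
        rintro a ⟨ha1, ha2⟩ b hab
        refine ⟨fun hb => ?_, fun hb => ?_⟩
        · have := (hbd b hb a ha1 hab.symm).2
          exact ha2 (s1 a this)
        · have := (hbdg b hb a ha2 hab.symm).2
          obtain ⟨y, hy, rfl⟩ := Finset.mem_image.1 this
          exact ha1 (s2 y hy))
      have h2 : a0 ∈ (Aᶜ ∩ (Im g A)ᶜ) := by rw [h1]; trivial
      exact h2.1 ha0
    have h3 : Aᶜ ⊆ Im g A \ A := by
      intro x hx
      refine ⟨?_, hx⟩
      by_contra hx'
      have : x ∈ (Aᶜ ∩ (Im g A)ᶜ) := ⟨hx, hx'⟩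
      rw [hX] at this
      exact this
    exact hH.coinf (hg.1.subset h3)
  · -- `S' ⊆ g A`, `g S' ⊆ Aᶜ`
    have hX : (A ∩ (Im g A)ᶜ) = ∅ := by
      by_contra hne
      have h1 := closed_univ hconn (Set.nonempty_iff_ne_empty.2 hne) (by
        rintro a ⟨ha1, ha2⟩ b hab
        refine ⟨?_, fun hb => ?_⟩
        · by_contra hb
          exact ha2 (s1 a (hbd a ha1 b hb hab).1)
        · have := (hbdg b hb a ha2 hab.symm).2
          obtain ⟨y, hy, rfl⟩ := Finset.mem_image.1 this
          exact s2 y hy ha1)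
      have h2 : b0 ∈ (A ∩ (Im g A)ᶜ) := by rw [h1]; trivial
      exact hb0 h2.1
    have h3 : A \ Im g A = ∅ := hX
    have h4 : 0 < (Im g A \ A).ncard := (Set.ncard_pos hg.1).2 ⟨b0, s1 b0 hS0.2, hb0⟩
    rw [h3, Set.ncard_empty]
    omega
  · -- `S' ⊆ (g A)ᶜ`, `g S' ⊆ A`
    have hX : (Im g A ∩ Aᶜ) = ∅ := by
      by_contra hne
      have h1 := closed_univ hconn (Set.nonempty_iff_ne_empty.2 hne) (by
        rintro a ⟨ha1, ha2⟩ b hab
        refine ⟨?_, fun hb => ?_⟩
        · by_contra hb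
          have := (hbdg a ha1 b hb hab).1
          obtain ⟨y, hy, rfl⟩ := Finset.mem_image.1 this
          exact ha2 (s2 y hy)
        · exact s1 a (hbd b hb a ha2 hab.symm).2 ha1)
      have h2 : a0 ∈ (Im g A ∩ Aᶜ) := by rw [h1]; trivial
      exact h2.2 ha0
    have h3 : Im g A \ A = ∅ := hX
    have h4 : 0 < (A \ Im g A).ncard := (Set.ncard_pos hg.2).2 ⟨a0, ha0, s1 a0 hS0.1⟩
    rw [h3, Set.ncard_empty]
    omega
  · -- `S' ⊆ (g A)ᶜ`, `g S' ⊆ Aᶜ`
    exfalso
    have hX : (A ∩ Im g A) = ∅ := by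
      by_contra hne
      have h1 := closed_univ hconn (Set.nonempty_iff_ne_empty.2 hne) (by
        rintro a ⟨ha1, ha2⟩ b hab
        refine ⟨?_, ?_⟩
        · by_contra hb
          exact s1 a (hbd a ha1 b hb hab).1 ha2
        · by_contra hb
          have := (hbdg a ha2 b hb hab).1
          obtain ⟨y, hy, rfl⟩ := Finset.mem_image.1 this
          exact s2 y hy ha1)
      have h2 : b0 ∈ (A ∩ Im g A) := by rw [h1]; trivial
      exact hb0 h2.1
    have h3 : A ⊆ A \ Im g A := by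
      intro x hx
      refine ⟨hx, fun hx' => ?_⟩
      have : x ∈ (A ∩ Im g A) := ⟨hx, hx'⟩
      rw [hX] at this
      exact this
    exact hH.inf (hg.2.subset h3)

/-- balls are finite -/
theorem ball_finite [G.LocallyFinite] : ∀ (n : ℕ) (s : V),
    {w | ∃ p : G.Walk s w, p.length ≤ n}.Finite := by
  intro n
  induction n with
  | zero =>
    intro s
    refine (Set.finite_singleton s).subset ?_
    rintro w ⟨p, hp⟩
    cases p with
    | nil => rfl
    | cons _ _ => simp at hp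
  | succ n ih =>
    intro s
    have h1 : ({s} ∪ ⋃ t ∈ G.neighborSet s, {w | ∃ p : G.Walk t w, p.length ≤ n}).Finite := by
      refine (Set.finite_singleton s).union ?_
      exact Set.Finite.biUnion (Set.toFinite _) fun t _ => ih t
    refine h1.subset ?_
    rintro w ⟨p, hp⟩
    cases p with
    | nil => exact Or.inl rfl
    | @cons _ t _ h q =>
      right
      rw [Set.mem_iUnion₂]
      refine ⟨t, h, q, ?_⟩
      rw [Walk.length_cons] at hp
      omega

/-- orbits of the kernel are finite -/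
theorem kernel_orbit_finite [G.LocallyFinite] (hconn : G.Connected) (hH : Half G A S) (v : V) :
    {w | ∃ g : G ≃g G, Pos A g ∧ tau A g = 0 ∧ g v = w}.Finite := by
  classical
  obtain ⟨S', hS', hc⟩ := G.extend_finset_to_connected hconn.preconnected
    (t := insert v S) (Finset.insert_nonempty v S)
  have hSS : S ⊆ S' := fun x hx => hS' (Finset.mem_insert_of_mem hx)
  have p : ∀ x : V, G.Walk x v := fun x => (hconn.preconnected x v).some
  set N := S'.sup fun x => (p x).length with hN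
  have h1 : (⋃ y ∈ (S' : Set V), {w | ∃ q : G.Walk y w, q.length ≤ N}).Finite :=
    Set.Finite.biUnion S'.finite_toSet fun y _ => ball_finite N y
  refine h1.subset ?_
  rintro w ⟨g, hg, ht, rfl⟩
  obtain ⟨x, hx, hgx⟩ : ∃ x ∈ S', g x ∈ S' := by
    by_contra hcon
    push Not at hcon
    exact tau_ne_zero hconn hH hSS hc hg hcon ht
  rw [Set.mem_iUnion₂]
  refine ⟨g x, hgx, ((p x).map g.toHom), ?_⟩
  rw [Walk.length_map]
  exact Finset.le_sup (f := fun x => (p x).length) hx

end Pool.Q11.TwoEnd
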