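import Mathlib
import Pool.Agent.Q11.TwoEnd.Group

/-!
# Level structures of two-ended vertex-transitive graphs and the main theorem
-/

namespace Pool.Q11.TwoEnd

open SimpleGraph

universe u

variable {V : Type u} {G : SimpleGraph V} {A : Set V} {S : Finset V}

/-- the end preserving automorphisms form a subgroup -/
def PosG (hH : Half G A S) : Subgroup (G ≃g G) where
  carrier := {g | Pos A g}
  mul_mem' := fun hg hh => pos_mul_pos hg hh
  one_mem' := pos_one
  inv_mem' := fun {g} hg => (pos_inv hH g).2 hg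

/-- the displacement homomorphism -/
noncomputable def tauH (hH : Half G A S) : PosG hH →* Multiplicative ℤ where
  toFun g := Multiplicative.ofAdd (tau A (g : G ≃g G))
  map_one' := by
    rw [Subgroup.coe_one, tau_one hH]; rfl
  map_mul' g h := by
    rw [Subgroup.coe_mul, tau_mul_pos hH g.2]; rfl

theorem tau_zpow (hH : Half G A S) {g : G ≃g G} (hg : Pos A g) (n : ℤ) :
    Pos A (g ^ n) ∧ tau A (g ^ n) = n * tau A g := by
  have h1 := (PosG hH).zpow_mem (x := g) hg n
  refine ⟨h1, ?_⟩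
  have h2 : tauH hH ((⟨g, hg⟩ : PosG hH) ^ n) = (tauH hH ⟨g, hg⟩) ^ n := map_zpow _ _ _
  have h3 : Multiplicative.toAdd (tauH hH ((⟨g, hg⟩ : PosG hH) ^ n)) =
      n * Multiplicative.toAdd (tauH hH ⟨g, hg⟩) := by
    rw [h2, toAdd_zpow, smul_eq_mul]
  exact h3

/-- the set of vertices reached with a given displacement is finite -/
theorem fibre_finite [G.LocallyFinite] (hconn : G.Connected) (hH : Half G A S) (v : V) (i : ℤ)
    (b : Prop) :
    {w | ∃ g : G ≃g G, (Pos A g ↔ b) ∧ tau A g = i ∧ g v = w}.Finite := by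
  rcases Set.eq_empty_or_nonempty {w | ∃ g : G ≃g G, (Pos A g ↔ b) ∧ tau A g = i ∧ g v = w} with h0 | ⟨w0, g0, hg0, ht0, hw0⟩
  · rw [h0]; exact Set.finite_empty
  refine (kernel_orbit_finite hconn hH w0).subset ?_
  rintro w ⟨g, hg, ht, rfl⟩
  refine ⟨g * g0⁻¹, ?_, ?_, ?_⟩
  · rw [pos_mul_iff hH, pos_inv hH, hg, hg0]
  · by_cases hb : b
    · have h1 : Pos A g := hg.2 hb
      have h2 : Pos A g0 := hg0.2 hb
      rw [tau_mul_pos hH h1, tau_inv_pos hH h2, ht, ht0]
      ring
    · have h1 : ¬ Pos A g := fun h => hb (hg.1 h)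
      have h2 : ¬ Pos A g0 := fun h => hb (hg0.1 h)
      rw [tau_mul_neg hH h1, tau_inv_neg hH h2, ht, ht0]
      ring
  · rw [RelIso.mul_apply, ← hw0, RelIso.inv_apply_self]

/-- the stabiliser has displacement zero -/
theorem stab_zero [G.LocallyFinite] [Infinite V] (hconn : G.Connected) (hH : Half G A S)
    (htrans : ∀ u v : V, ∃ g : G ≃g G, g u = v) {v0 : V} {g : G ≃g G} (hg : Pos A g)
    (hfix : g v0 = v0) : tau A g = 0 := by
  by_contra hne
  have hfixn : ∀ n : ℤ, (g ^ n) v0 = v0 := by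
    have h1 : ∀ n : ℕ, (g ^ n) v0 = v0 := by
      intro n
      induction n with
      | zero => rfl
      | succ n ih => rw [pow_succ, RelIso.mul_apply, hfix, ih]
    have hfix' : g⁻¹ v0 = v0 := by
      conv_lhs => rw [← hfix]
      rw [RelIso.inv_apply_self]
    have h2 : ∀ n : ℕ, (g⁻¹ ^ n) v0 = v0 := by
      intro n
      induction n with
      | zero => rfl
      | succ n ih => rw [pow_succ, RelIso.mul_apply, hfix', ih]
    intro n
    rcases Int.eq_nat_or_neg n with ⟨m, rfl | rfl⟩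
    · rw [zpow_natCast]; exact h1 m
    · rw [zpow_neg, zpow_natCast, ← inv_pow]; exact h2 m
  -- the end preserving orbit is finite
  have hO : {w | ∃ h : G ≃g G, Pos A h ∧ h v0 = w}.Finite := by
    have h1 : (⋃ r ∈ (Finset.Ico (0 : ℤ) |tau A g| : Set ℤ),
        {w | ∃ h : G ≃g G, (Pos A h ↔ True) ∧ tau A h = r ∧ h v0 = w}).Finite :=
      Set.Finite.biUnion (Finset.finite_toSet _) fun r _ => fibre_finite hconn hH v0 r True
    refine h1.subset ?_
    rintro w ⟨h, hh, rfl⟩
    rw [Set.mem_iUnion₂]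
    have h2 := tau_zpow hH hg (-(tau A h / tau A g))
    refine ⟨tau A h % tau A g, ?_, h * g ^ (-(tau A h / tau A g)), ?_, ?_, ?_⟩
    · rw [Finset.mem_coe, Finset.mem_Ico]
      exact ⟨Int.emod_nonneg _ hne, Int.emod_lt_abs _ hne⟩
    · exact iff_true_intro (pos_mul_pos hh h2.1)
    · rw [tau_mul_pos hH hh, h2.2, Int.emod_def]
      ring
    · rw [RelIso.mul_apply, hfixn]
  -- so everything is finite
  have hall : (Set.univ : Set V).Finite := by
    by_cases hex : ∃ σ : G ≃g G, ¬ Pos A σ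
    · obtain ⟨σ, hσ⟩ := hex
      refine (hO.union (hO.image σ)).subset ?_
      intro w _
      obtain ⟨h, rfl⟩ := htrans v0 w
      by_cases hh : Pos A h
      · exact Or.inl ⟨h, hh, rfl⟩
      · right
        refine ⟨(σ⁻¹ * h) v0, ⟨σ⁻¹ * h, ?_, rfl⟩, ?_⟩
        · exact neg_mul_neg hH (fun h' => hσ ((pos_inv hH σ).1 h')) hh
        · rw [RelIso.mul_apply, RelIso.apply_inv_self]
    · push Not at hex
      refine hO.subset ?_
      intro w _
      obtain ⟨h, rfl⟩ := htrans v0 w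
      exact ⟨h, hex h, rfl⟩
  exact Set.infinite_univ hall

/-- a level structure from a transitive set of automorphisms with stabiliser preserving the ends -/
theorem lev_of_gamma [G.LocallyFinite] [Infinite V] (hconn : G.Connected) (hH : Half G A S)
    (htrans : ∀ u v : V, ∃ g : G ≃g G, g u = v) (v0 : V) (Γ : Subgroup (G ≃g G))
    (h1 : ∀ v, ∃ g ∈ Γ, g v0 = v) (h2 : ∀ g ∈ Γ, g v0 = v0 → Pos A g) :
    ∃ (T : V → Prop) (ℓ : V → ℤ), Lev G T ℓ := by
  choose γ hγ hγv using h1
  set T : V → Prop := fun v => Pos A (γ v) with hT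
  set ℓ : V → ℤ := fun v => tau A (γ v) with hℓ
  have hinv : ∀ v, (γ v)⁻¹ v = v0 := fun v => by
    have := RelIso.inv_apply_self (γ v) v0
    rwa [hγv v] at this
  -- independence of the representative
  have key : ∀ (g : G ≃g G) (_ : g ∈ Γ) (v : V), g v0 = v → ((Pos A g ↔ T v) ∧ tau A g = ℓ v) := by
    intro g hg v hv
    set s := (γ v)⁻¹ * g with hs
    have hsΓ : s ∈ Γ := Γ.mul_mem (Γ.inv_mem (hγ v)) hg
    have hsv : s v0 = v0 := by
      rw [hs, RelIso.mul_apply, hv, hinv v]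
    have hsP : Pos A s := h2 s hsΓ hsv
    have hs0 : tau A s = 0 := stab_zero hconn hH htrans hsP hsv
    have hgs : g = γ v * s := by rw [hs, mul_inv_cancel_left]
    constructor
    · rw [hgs, pos_mul_iff hH]
      simp [hsP, hT]
    · rw [hgs]
      by_cases hp : Pos A (γ v)
      · rw [tau_mul_pos hH hp, hs0, add_zero]
      · rw [tau_mul_neg hH hp, hs0, sub_zero]
  have act : ∀ (g : G ≃g G) (_ : g ∈ Γ) (x : V), (T (g x) ↔ (Pos A g ↔ T x)) ∧
      ℓ (g x) = tau A (g * γ x) := by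
    intro g hg x
    have h3 := key (g * γ x) (Γ.mul_mem hg (hγ x)) (g x) (by rw [RelIso.mul_apply, hγv x])
    refine ⟨?_, h3.2.symm⟩
    rw [← h3.1, pos_mul_iff hH]
  refine ⟨T, ℓ, ⟨?_, ?_, ?_⟩⟩
  · intro v w hvw
    set g := γ w * (γ v)⁻¹ with hg
    have hgΓ : g ∈ Γ := Γ.mul_mem (hγ w) (Γ.inv_mem (hγ v))
    have hgP : Pos A g := by
      rw [hg, pos_mul_iff hH, pos_inv hH]
      exact hvw.symm
    have hgv : g v = w := by
      rw [hg, RelIso.mul_apply, hinv v, hγv w]
    refine ⟨g, hgv, ?_⟩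
    have hlev : ∀ x, ℓ (g x) = tau A g + ℓ x := fun x => by
      rw [(act g hgΓ x).2, tau_mul_pos hH hgP]
    intro x
    refine ⟨?_, ?_⟩
    · rw [(act g hgΓ x).1]; simp [hgP]
    · have h3 := hlev v
      rw [hgv] at h3
      rw [hlev x]
      omega
  · intro v w hvw
    set g := γ w * (γ v)⁻¹ with hg
    have hgΓ : g ∈ Γ := Γ.mul_mem (hγ w) (Γ.inv_mem (hγ v))
    have hgP : ¬ Pos A g := by
      rw [hg, pos_mul_iff hH, pos_inv hH]
      exact fun h => hvw h.symm
    have hgv : g v = w := by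
      rw [hg, RelIso.mul_apply, hinv v, hγv w]
    refine ⟨g, hgv, ?_⟩
    have hlev : ∀ x, ℓ (g x) = tau A g - ℓ x := fun x => by
      rw [(act g hgΓ x).2, tau_mul_neg hH hgP]
    intro x
    refine ⟨?_, ?_⟩
    · rw [(act g hgΓ x).1]; simp [hgP]
    · have h3 := hlev v
      rw [hgv] at h3
      rw [hlev x]
      omega
  · intro i
    refine ((fibre_finite hconn hH v0 i True).union (fibre_finite hconn hH v0 i False)).subset ?_
    intro v hv
    have hv' : tau A (γ v) = i := hv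
    by_cases hp : Pos A (γ v)
    · exact Or.inl ⟨γ v, iff_true_intro hp, hv', hγv v⟩
    · exact Or.inr ⟨γ v, iff_false_intro hp, hv', hγv v⟩

theorem exists_lev [G.LocallyFinite] [Infinite V] (hconn : G.Connected) (hH : Half G A S)
    (htrans : ∀ u v : V, ∃ g : G ≃g G, g u = v) : ∃ (T : V → Prop) (ℓ : V → ℤ), Lev G T ℓ := by
  obtain ⟨v0⟩ := hconn.nonempty
  by_cases hcase : ∀ v, ∃ g : G ≃g G, Pos A g ∧ g v0 = v
  · exact lev_of_gamma hconn hH htrans v0 (PosG hH) (fun v => hcase v) (fun g hg _ => hg)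
  · refine lev_of_gamma hconn hH htrans v0 ⊤ (fun v => ?_) (fun g _ hgv => ?_)
    · obtain ⟨g, hg⟩ := htrans v0 v
      exact ⟨g, Subgroup.mem_top _, hg⟩
    · by_contra hgP
      apply hcase
      intro v
      obtain ⟨h, hh⟩ := htrans v0 v
      by_cases hp : Pos A h
      · exact ⟨h, hp, hh⟩
      · refine ⟨h * g, neg_mul_neg hH hp hgP, ?_⟩
        rw [RelIso.mul_apply, hgv, hh]

/-- **main theorem** -/
theorem two_ended_ec {V : Type u} (G : SimpleGraph V) [G.LocallyFinite] (k : ℕ)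
    (hconn : G.Connected) (hreg : G.IsRegularOfDegree k)
    (htrans : ∀ u v : V, ∃ g : G ≃g G, g u = v) (h2 : TwoEnded G) : EC G k := by
  classical
  obtain ⟨A, S, hH⟩ := exists_half hconn h2
  have : Infinite V := Set.infinite_univ_iff.1 (hH.inf.mono (Set.subset_univ _))
  obtain ⟨T, ℓ, hL⟩ := exists_lev hconn hH htrans
  refine ec_of_lev hL hconn k ?_
  intro v
  have h3 := hreg v
  rw [← h3, ← G.card_neighborSet_eq_degree, Set.ncard_eq_toFinset_card', Set.toFinset_card]

end Pool.Q11.TwoEnd
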